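import Pool.Agent.H835R5.Fin

set_option autoImplicit false

namespace Pool.Agent.H835R5

theorem taskA2 : TaskA2 := by
  have h2 : IsAdicComplete (IsLocalRing.maximalIdeal A2) A2 := by
    rw [PowerSeries.maximalIdeal_eq_span_X]
    infer_instance
  have h3 : HenselianRing A2 (IsLocalRing.maximalIdeal A2) := inferInstance
  refine ⟨inferInstance, h2, ?_, ?_⟩
  · refine { is_henselian := ?_ }
    intro f hf a₀ h₁ h₂
    exact h3.is_henselian f hf a₀ h₁ (h₂.map _)
  · have hch : CharP A2 2 :=
      charP_of_injective_ringHom (f := PowerSeries.C (R := ZMod 2)) PowerSeries.C_injective 2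
    refine (CharP.charP_iff_prime_eq_zero Nat.prime_two).mpr ?_
    rw [← map_natCast (IsLocalRing.residue A2), CharP.cast_eq_zero, map_zero]

end Pool.Agent.H835R5
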