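import Pool.Agent.H835R5.Stmts2

/-!
# MP_d82055_ag, task Cmp (helper766): sections over the charts
-/

set_option autoImplicit false

open CategoryTheory AlgebraicGeometry TopologicalSpace Opposite
open Pool.Agent.Helper198.Sch HomogeneousLocalization

namespace Pool.Agent.H835R5

attribute [local instance] MvPolynomial.gradedAlgebra

namespace CmpAux

section general

universe u

variable {τ : Type*} {A : Type u} [CommRing A] [SetLike τ A] [AddSubgroupClass τ A]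
variable (𝒜 : ℕ → τ) [GradedRing 𝒜] (f : A) {m : ℕ} (f_deg : f ∈ 𝒜 m) (hm : 0 < m)

theorem gen_preimage (z : Away 𝒜 f) :
    Proj.awayι 𝒜 f f_deg hm ⁻¹ᵁ ((Proj 𝒜).basicOpen ((Proj.awayToSection 𝒜 f).hom z)) =
      PrimeSpectrum.basicOpen z := by
  let W : (Spec (.of (Away 𝒜 f))).Opens := PrimeSpectrum.basicOpen z
  have h2 := Scheme.Opens.toSpecΓ_preimage_basicOpen (Proj.basicOpen 𝒜 f)
    ((Proj.awayToSection 𝒜 f).hom z)
  have h3 : (Proj.basicOpenIsoSpec 𝒜 f f_deg hm).hom ⁻¹ᵁ W =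
      (Proj.basicOpen 𝒜 f).ι ⁻¹ᵁ (Proj 𝒜).basicOpen ((Proj.awayToSection 𝒜 f).hom z) := by
    rw [← h2, Proj.basicOpenIsoSpec_hom]
    rfl
  have h4 : ((Proj.basicOpenIsoSpec 𝒜 f f_deg hm).inv ≫
      (Proj.basicOpenIsoSpec 𝒜 f f_deg hm).hom) ⁻¹ᵁ W = W := by
    rw [Iso.inv_hom_id]
    rfl
  rw [Scheme.Hom.comp_preimage, h3] at h4
  rw [Proj.awayι, Scheme.Hom.comp_preimage]
  exact h4

theorem ι_top (X : Scheme.{u}) (U : X.Opens) :
    U.ι.appTop ≫ U.topIso.hom = X.presheaf.map (homOfLE (le_top : U ≤ ⊤)).op := by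
  exact (X.presheaf.map_comp (homOfLE (le_top : U.ι ''ᵁ ⊤ ≤ ⊤)).op
    (eqToHom U.ι_image_top.symm).op).symm

include f_deg hm in
theorem gen_const {B : Type u} [CommRing B] (g : B →+* 𝒜 0) :
    (Scheme.ΓSpecIso (.of B)).inv ≫ (Proj.toSpecZero 𝒜 ≫
      Spec.map (CommRingCat.ofHom g)).appTop ≫
      (Proj 𝒜).presheaf.map (homOfLE (le_top : Proj.basicOpen 𝒜 f ≤ ⊤)).op =
    CommRingCat.ofHom g ≫ CommRingCat.ofHom (fromZeroRingHom 𝒜 (Submonoid.powers f)) ≫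
      Proj.awayToSection 𝒜 f := by
  have e1 : (Proj.basicOpen 𝒜 f).ι ≫ Proj.toSpecZero 𝒜 = Proj.basicOpenToSpec 𝒜 f ≫
      Spec.map (CommRingCat.ofHom (fromZeroRingHom 𝒜 _)) := by
    rw [← Proj.basicOpenIsoSpec_hom 𝒜 f f_deg hm, ← Proj.awayι_toSpecZero 𝒜 f f_deg hm,
      Proj.awayι, Category.assoc, Iso.hom_inv_id_assoc]
  have e2 : (Proj.basicOpen 𝒜 f).ι ≫ (Proj.toSpecZero 𝒜 ≫ Spec.map (CommRingCat.ofHom g)) =
      Proj.basicOpenToSpec 𝒜 f ≫ Spec.map (CommRingCat.ofHom g ≫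
        CommRingCat.ofHom (fromZeroRingHom 𝒜 _)) := by
    rw [← Category.assoc, e1, Category.assoc, ← Spec.map_comp]
  have e3 : (Proj.toSpecZero 𝒜 ≫ Spec.map (CommRingCat.ofHom g)).appTop ≫
      (Proj.basicOpen 𝒜 f).ι.appTop = (Spec.map (CommRingCat.ofHom g ≫
        CommRingCat.ofHom (fromZeroRingHom 𝒜 _))).appTop ≫
        (Proj.basicOpenToSpec 𝒜 f).appTop := by
    rw [← Scheme.Hom.comp_appTop, e2]
    exact Scheme.Hom.comp_appTop _ _
  have e4 : (Proj.basicOpenToSpec 𝒜 f).appTop = (Scheme.ΓSpecIso _).hom ≫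
    Proj.awayToSection 𝒜 f ≫ (Proj.basicOpen 𝒜 f).topIso.inv := Proj.basicOpenToSpec_app_top 𝒜 f
  have e5 := Scheme.ΓSpecIso_naturality (CommRingCat.ofHom g ≫
        CommRingCat.ofHom (fromZeroRingHom 𝒜 (Submonoid.powers f)))
  rw [← ι_top]
  calc (Scheme.ΓSpecIso (.of B)).inv ≫ (Proj.toSpecZero 𝒜 ≫
      Spec.map (CommRingCat.ofHom g)).appTop ≫ (Proj.basicOpen 𝒜 f).ι.appTop ≫
        (Proj.basicOpen 𝒜 f).topIso.hom
      = (Scheme.ΓSpecIso (.of B)).inv ≫ ((Proj.toSpecZero 𝒜 ≫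
      Spec.map (CommRingCat.ofHom g)).appTop ≫ (Proj.basicOpen 𝒜 f).ι.appTop) ≫
        (Proj.basicOpen 𝒜 f).topIso.hom := by simp only [Category.assoc]
    _ = (Scheme.ΓSpecIso (.of B)).inv ≫ ((Spec.map (CommRingCat.ofHom g ≫
        CommRingCat.ofHom (fromZeroRingHom 𝒜 _))).appTop ≫ (Scheme.ΓSpecIso _).hom ≫
        Proj.awayToSection 𝒜 f ≫ (Proj.basicOpen 𝒜 f).topIso.inv) ≫
        (Proj.basicOpen 𝒜 f).topIso.hom := by rw [e3, e4]
    _ = (Scheme.ΓSpecIso (.of B)).inv ≫ ((Spec.map (CommRingCat.ofHom g ≫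
        CommRingCat.ofHom (fromZeroRingHom 𝒜 _))).appTop ≫ (Scheme.ΓSpecIso _).hom) ≫
        Proj.awayToSection 𝒜 f := by simp only [Category.assoc, Iso.inv_hom_id, Category.comp_id]
    _ = _ := by
      rw [e5]
      simp only [Category.assoc, Iso.inv_hom_id_assoc]

variable {g : A} {m' : ℕ} (g_deg : g ∈ 𝒜 m')

theorem gen_res (z : Away 𝒜 f) {x : A} (hx : x = f * g)
    {W : (Proj 𝒜).Opens} (hW : W ≤ Proj.basicOpen 𝒜 x) (hW' : W ≤ Proj.basicOpen 𝒜 f) :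
    ((Proj 𝒜).presheaf.map (homOfLE hW').op).hom ((Proj.awayToSection 𝒜 f).hom z) =
      ((Proj 𝒜).presheaf.map (homOfLE hW).op).hom
        ((Proj.awayToSection 𝒜 x).hom (awayMap 𝒜 g_deg hx z)) := by
  have h1 := ConcreteCategory.congr_hom (Proj.awayMap_awayToSection 𝒜 (f := f) g_deg hx) z
  have h2 : (Proj.awayToSection 𝒜 x).hom (awayMap 𝒜 g_deg hx z) =
    ((Proj 𝒜).presheaf.map (homOfLE (Proj.basicOpen_mono 𝒜 _ _ ⟨_, hx⟩)).op).hom
      ((Proj.awayToSection 𝒜 f).hom z) := h1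
  have h3 := (Proj 𝒜).presheaf.map_comp (homOfLE (Proj.basicOpen_mono 𝒜 f x ⟨_, hx⟩)).op
    (homOfLE hW).op
  have h4 := ConcreteCategory.congr_hom h3 ((Proj.awayToSection 𝒜 f).hom z)
  rw [h2]
  exact h4

include f_deg in
theorem gen_mul (z1 z2 : Away 𝒜 f) (z3 : Away 𝒜 g)
    (h : awayMap 𝒜 g_deg (rfl : f * g = f * g) z1 = awayMap 𝒜 g_deg rfl z2 *
      awayMap 𝒜 f_deg (mul_comm f g) z3) :
    ((Proj 𝒜).presheaf.map (homOfLE (inf_le_left : Proj.basicOpen 𝒜 f ⊓ Proj.basicOpen 𝒜 g ≤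
      Proj.basicOpen 𝒜 f)).op).hom ((Proj.awayToSection 𝒜 f).hom z1) =
    ((Proj 𝒜).presheaf.map (homOfLE (inf_le_left : Proj.basicOpen 𝒜 f ⊓ Proj.basicOpen 𝒜 g ≤
      Proj.basicOpen 𝒜 f)).op).hom ((Proj.awayToSection 𝒜 f).hom z2) *
    ((Proj 𝒜).presheaf.map (homOfLE (inf_le_right : Proj.basicOpen 𝒜 f ⊓ Proj.basicOpen 𝒜 g ≤
      Proj.basicOpen 𝒜 g)).op).hom ((Proj.awayToSection 𝒜 g).hom z3) := by
  have hW : Proj.basicOpen 𝒜 f ⊓ Proj.basicOpen 𝒜 g ≤ Proj.basicOpen 𝒜 (f * g) :=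
    (Proj.basicOpen_mul 𝒜 f g).ge
  rw [gen_res 𝒜 f g_deg z1 rfl hW inf_le_left, gen_res 𝒜 f g_deg z2 rfl hW inf_le_left,
    gen_res 𝒜 g f_deg z3 (mul_comm f g) hW inf_le_right, ← map_mul, ← map_mul, h]

end general

variable {σ R : Type} [CommRing R]

theorem sc_bij (J : HI σ R) (c : σ) : Function.Bijective (sc J c) := by
  have h3 : IsIso (Proj.awayToSection (qgrad J.toIdeal) (gen J c)) := by
    have := (Proj.basicOpenIsoAway (qgrad J.toIdeal) (gen J c) (gen_mem J c) one_pos).isIso_hom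
    rwa [Proj.basicOpenIsoAway_hom] at this
  exact ConcreteCategory.bijective_of_isIso (Proj.awayToSection (qgrad J.toIdeal) (gen J c))

theorem affine (J : HI σ R) (c : σ) : IsAffineOpen (V.D J c) :=
  Proj.isAffineOpen_basicOpen (qgrad J.toIdeal) (gen J c) (gen_mem J c) one_pos

/-! the basic opens -/

theorem chart_preimage (J : HI σ R) (c : σ) (z : Ch J c) :
    V.chart J c ⁻¹ᵁ ((V J).basicOpen (sc J c z)) = PrimeSpectrum.basicOpen z :=
  gen_preimage (qgrad J.toIdeal) (gen J c) (gen_mem J c) one_pos z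

theorem basicOpen_sc (J : HI σ R) (c c' : σ) :
    (V J).basicOpen (sc J c (frac J c c')) = V.D J c ⊓ V.D J c' := by
  ext x
  by_cases hx : x ∈ V.D J c
  · obtain ⟨y, rfl⟩ := (V.mem_range_chart J c x).2 hx
    have h1 : V.chart J c y ∈ ((V J).basicOpen (sc J c (frac J c c'))) ↔
        frac J c c' ∉ y.asIdeal := by
      have h := chart_preimage J c (frac J c c')
      have h' : y ∈ V.chart J c ⁻¹ᵁ ((V J).basicOpen (sc J c (frac J c c'))) ↔
        y ∈ PrimeSpectrum.basicOpen (frac J c c') := by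
          rw [h]; exact Iff.rfl
      exact h'
    have h2 := V.chart_mem_D J c c' y
    constructor
    · intro h
      exact ⟨hx, h2.2 (h1.1 h)⟩
    · intro h
      exact h1.2 (h2.1 h.2)
  · constructor
    · intro h
      exact absurd ((V J).basicOpen_le _ h) hx
    · intro h
      exact absurd h.1 hx

theorem const (J : HI σ R) (c : σ) (a : R) :
    sc J c (algebraMap R (Ch J c) a) = cst (cJ J) (V.D J c) a := by
  have h := ConcreteCategory.congr_hom (gen_const (qgrad J.toIdeal) (gen J c) (gen_mem J c)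
    one_pos (algebraMap R (qgrad J.toIdeal 0))) a
  exact h.symm

theorem frac_rel (J : HI σ R) (c c' a : σ) :
    awayMap (qgrad J.toIdeal) (gen_mem J c') (rfl : gen J c * gen J c' = gen J c * gen J c')
      (frac J c a) = awayMap (qgrad J.toIdeal) (gen_mem J c') rfl (frac J c c') *
      awayMap (qgrad J.toIdeal) (gen_mem J c) (mul_comm (gen J c) (gen J c')) (frac J c' a) := by
  unfold frac
  erw [awayMap_mk, awayMap_mk, awayMap_mk]
  apply HomogeneousLocalization.val_injective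
  rw [HomogeneousLocalization.val_mul, Away.val_mk, Away.val_mk, Away.val_mk]
  rw [Localization.mk_mul]
  refine Localization.mk_eq_mk_iff.mpr ?_
  rw [Localization.r_iff_exists]
  refine ⟨1, ?_⟩
  simp only [Submonoid.coe_mul, OneMemClass.coe_one, pow_one, one_mul]
  ring

end CmpAux

theorem taskCmp : TaskCmp := by
  intro σ R _ J
  exact ⟨CmpAux.sc_bij J, CmpAux.affine J, CmpAux.const J, CmpAux.basicOpen_sc J,
    fun c c' a => CmpAux.gen_mul (qgrad J.toIdeal) (gen J c) (gen_mem J c) (gen_mem J c') _ _ _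
      (CmpAux.frac_rel J c c' a)⟩

end Pool.Agent.H835R5
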