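import Pool.Agent.H835R5.Stmts2
import Pool.Agent.Helper198.SchQ

/-! Tasks Cov and Sm (helper510) -/

set_option autoImplicit false

open CategoryTheory AlgebraicGeometry TopologicalSpace Opposite
open Pool.Agent.Helper198.Sch

namespace Pool.Agent.H835R5

attribute [local instance] MvPolynomial.gradedAlgebra

theorem taskCov : TaskCov := by
  intro R _ x
  by_contra hcon
  push Not at hcon
  obtain ⟨h1, h2⟩ := hcon
  rw [V.mem_D_iff, not_not] at h1 h2
  obtain ⟨c, hc⟩ := V.exists_mem_D (JE R) x
  rw [V.mem_D_iff] at hc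
  have hrel : gen (JE R) 1 ^ 2 * gen (JE R) 2 + gen (JE R) 1 * gen (JE R) 2 ^ 2 -
      gen (JE R) 0 ^ 3 = 0 := by
    have h : Ideal.Quotient.mk (JE R).toIdeal (cubic R) = 0 :=
      Ideal.Quotient.eq_zero_iff_mem.2 (mem_ofSet rfl)
    unfold cubic at h
    simp only [map_sub, map_add, map_mul, map_pow] at h
    exact h
  have h3 : gen (JE R) 0 ^ 3 ∈
      (ProjectiveSpectrum.asHomogeneousIdeal (𝒜 := qgrad (JE R).toIdeal) x).toIdeal := by
    have h4 : gen (JE R) 0 ^ 3 = (gen (JE R) 1 ^ 2 + gen (JE R) 1 * gen (JE R) 2) * gen (JE R) 2 := by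
      linear_combination -hrel
    rw [h4]
    exact Ideal.mul_mem_left _ _ h2
  have h5 : gen (JE R) 0 ∈ ProjectiveSpectrum.asHomogeneousIdeal (𝒜 := qgrad (JE R).toIdeal) x :=
    x.isPrime.mem_of_pow_mem 3 h3
  fin_cases c
  · exact hc h5
  · exact hc h1
  · exact hc h2

section smooth

variable (R : Type) [CommRing R]

/-- the relation as a family -/
noncomputable def fQ : Unit → MvPolynomial (Fin 2) R := fun _ => relQ R

abbrev QQ' : Type := MvPolynomial (Fin 2) R ⧸ Ideal.span (Set.range (fQ R))

/-- The index of the pivot variable. -/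
def pivQ : Unit → Fin 2 := fun _ => 1

lemma pivQ_inj : Function.Injective pivQ := fun _ _ _ => rfl

/-- The presentation with invertible Jacobian. -/
noncomputable def presQ : Algebra.PreSubmersivePresentation R (QQ' R) (Fin 2) Unit :=
  Algebra.PreSubmersivePresentation.naive (v := fQ R) pivQ pivQ_inj

lemma pderiv_fQ [CharP R 2] : MvPolynomial.pderiv (1 : Fin 2) (fQ R ()) = 1 := by
  have h2 : (2 : MvPolynomial (Fin 2) R) = 0 := by
    have : ((2 : ℕ) : MvPolynomial (Fin 2) R) = 0 := CharP.cast_eq_zero _ 2
    exact_mod_cast this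
  simp [fQ, relQ, MvPolynomial.pderiv_X, h2]

lemma presQ_jac [CharP R 2] : (presQ R).jacobian = 1 := by
  rw [Algebra.PreSubmersivePresentation.jacobian_eq_jacobiMatrix_det]
  have : (presQ R).jacobiMatrix = Matrix.of (fun _ _ => 1) := by
    apply Matrix.ext
    intro i j
    rw [presQ, Algebra.PreSubmersivePresentation.jacobiMatrix_naive]
    exact pderiv_fQ R
  rw [this, Matrix.det_unique]
  simp

lemma smooth_QQ' [CharP R 2] : Algebra.IsStandardSmoothOfRelativeDimension 1 R (QQ' R) := by
  let P : Algebra.SubmersivePresentation R (QQ' R) (Fin 2) Unit :=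
    { presQ R with
      jacobian_isUnit := by
        have h : IsUnit (1 : QQ' R) := isUnit_one
        exact (presQ_jac R) ▸ h }
  apply P.isStandardSmoothOfRelativeDimension
  simp [Algebra.Presentation.dimension]

lemma smooth_QQ [CharP R 2] : Algebra.IsStandardSmoothOfRelativeDimension 1 R (QQ R) := by
  have h1 := smooth_QQ' R
  have h2 : Ideal.span (Set.range (fQ R)) = Ideal.span {relQ R} := by
    congr 1
    ext g
    constructor
    · rintro ⟨_, rfl⟩; rfl
    · rintro rfl; exact ⟨(), rfl⟩
  exact Algebra.IsStandardSmoothOfRelativeDimension.of_algEquiv 1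
    (Ideal.quotientEquivAlgOfEq R h2)

end smooth

/-- the two charts -/
def chQ : Bool → Fin 3
  | false => 1
  | true => 2

set_option backward.isDefEq.respectTransparency.types false in
theorem taskSm : TaskSm := by
  intro hCh hCov R _ _
  apply IsZariskiLocalAtSource.of_openCover
    (V.coverOf (JE R) chQ (fun x => (hCov R x).elim (fun h => ⟨false, h⟩) (fun h => ⟨true, h⟩))).openCover
  intro (t : Bool)
  change SmoothOfRelativeDimension 1 (V.chart (JE R) (chQ t) ≫ V.str (JE R))
  rw [V.chart_str, HasRingHomProperty.Spec_iff (P := @SmoothOfRelativeDimension 1)]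
  apply RingHom.locally_of
  · exact RingHom.isStandardSmoothOfRelativeDimension_respectsIso
  · have h1 := smooth_QQ R
    have h2 : Algebra.IsStandardSmoothOfRelativeDimension 1 R (Ch (JE R) (chQ t)) := by
      cases t
      · obtain ⟨e, -, -⟩ := (hCh R).2
        exact Algebra.IsStandardSmoothOfRelativeDimension.of_algEquiv 1 e.symm
      · obtain ⟨e, -, -⟩ := (hCh R).1
        exact Algebra.IsStandardSmoothOfRelativeDimension.of_algEquiv 1 e.symm
    exact (RingHom.isStandardSmoothOfRelativeDimension_algebraMap 1).2 h2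

end Pool.Agent.H835R5
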