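import Mathlib
import Pool.Agent.H835R5.Stmts
import Pool.Agent.H835R3.SchExt

set_option autoImplicit false

/-! Task DER: the derivation `d/dt` of the structure sheaf. -/

open CategoryTheory AlgebraicGeometry TopologicalSpace Opposite

namespace Pool.Agent.H835R5

namespace Der632

open MvPolynomial

abbrev P2 : Type := MvPolynomial (Fin 2) A2

/-- coefficientwise derivative -/
noncomputable def cdf (f : P2) : P2 :=
  ∑ m ∈ f.support, monomial m (PowerSeries.derivative (ZMod 2) (coeff m f))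

lemma coeff_cdf (f : P2) (m : Fin 2 →₀ ℕ) :
    coeff m (cdf f) = PowerSeries.derivative (ZMod 2) (coeff m f) := by
  classical
  unfold cdf
  rw [coeff_sum]
  simp only [coeff_monomial]
  rw [Finset.sum_ite_eq']
  split_ifs with h
  · rfl
  · rw [notMem_support_iff.mp h, map_zero]

lemma cdf_add (f g : P2) : cdf (f + g) = cdf f + cdf g := by
  ext1 m
  rw [coeff_add, coeff_cdf, coeff_cdf, coeff_cdf, coeff_add, map_add]

lemma cdf_mul (f g : P2) : cdf (f * g) = f * cdf g + g * cdf f := by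
  classical
  ext1 m
  rw [mul_comm g (cdf f), coeff_add, coeff_cdf, coeff_mul, coeff_mul, coeff_mul, map_sum,
    ← Finset.sum_add_distrib]
  refine Finset.sum_congr rfl (fun a _ => ?_)
  rw [coeff_cdf, coeff_cdf, Derivation.leibniz, smul_eq_mul, smul_eq_mul]
  ring

lemma cdf_C (a : A2) : cdf (C a) = C (PowerSeries.derivative (ZMod 2) a) := by
  classical
  ext1 m
  rw [coeff_cdf, coeff_C, coeff_C]
  split_ifs with h
  · rfl
  · rw [map_zero]

lemma cdf_X (i : Fin 2) : cdf (X i) = 0 := by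
  classical
  ext1 m
  rw [coeff_cdf, coeff_X, coeff_zero]
  split_ifs with h
  · exact Derivation.map_one_eq_zero _
  · rw [map_zero]

lemma cdf_zero : cdf (0 : P2) = 0 := by
  simp [cdf]

lemma cdf_rel : cdf (X 1 ^ 2 + X 1 - X 0 ^ 3 : P2) = 0 := by
  have h1 : cdf (X 1 ^ 2 + X 1 - X 0 ^ 3 : P2) + cdf (X 0 ^ 3) = cdf (X 1 ^ 2 + X 1) := by
    rw [← cdf_add, sub_add_cancel]
  have h2 : cdf (X 0 ^ 3 : P2) = 0 := by
    rw [pow_succ, pow_two, cdf_mul, cdf_mul, cdf_X]
    ring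
  have h3 : cdf (X 1 ^ 2 + X 1 : P2) = 0 := by
    rw [cdf_add, pow_two, cdf_mul, cdf_X]
    ring
  rw [h2, h3, add_zero] at h1
  exact h1

lemma two_A2 : (2 : A2) = 0 := by
  have h : (2 : ZMod 2) = 0 := by decide
  have h2 : (2 : A2) = PowerSeries.C (2 : ZMod 2) := by
    rw [map_ofNat]
  rw [h2, h, map_zero]

/-- a derivation of `K` killing the values of the variables acts coefficientwise -/
lemma eval_cdf {K : Type} [CommRing K] (κ : A2 →+* K) (v : Fin 2 → K) (D : K →+ K)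
    (hL : ∀ a b, D (a * b) = a * D b + b * D a)
    (hκ : ∀ a, D (κ a) = κ (PowerSeries.derivative (ZMod 2) a)) (hv : ∀ i, D (v i) = 0) (f : P2) :
    D (eval₂ κ v f) = eval₂ κ v (cdf f) := by
  induction f using MvPolynomial.induction_on with
  | C a => rw [cdf_C, eval₂_C, eval₂_C, hκ]
  | add p q hp hq => rw [cdf_add, eval₂_add, eval₂_add, map_add, hp, hq]
  | mul_X p i hp =>
    rw [cdf_mul, cdf_X, eval₂_mul, eval₂_X, hL, hv, hp, mul_zero, mul_zero, zero_add, zero_add,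
      eval₂_mul, eval₂_X]

/-- the descended derivation -/
lemma exists_delta {B : Type} [CommRing B] (e : A2 →+* B) (x y : B)
    (rel : y ^ 2 + y = x ^ 3)
    (gen : ∀ s : B, ∃ f : P2, eval₂ e ![x, y] f = s)
    (ker : ∀ f : P2, eval₂ e ![x, y] f = 0 → f ∈ Ideal.span {(X 1 ^ 2 + X 1 - X 0 ^ 3 : P2)}) :
    ∃ D : B →+ B, (∀ a b, D (a * b) = a * D b + b * D a) ∧
      (∀ a, D (e a) = e (PowerSeries.derivative (ZMod 2) a)) ∧ D x = 0 ∧ D y = 0 := by
  have hrel : eval₂ e ![x, y] (X 1 ^ 2 + X 1 - X 0 ^ 3 : P2) = 0 := by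
    simp only [← coe_eval₂Hom, map_sub, map_add, map_pow]
    simp only [coe_eval₂Hom, eval₂_X, Matrix.cons_val_one, Matrix.cons_val_zero]
    rw [sub_eq_zero]
    exact rel
  have hwd : ∀ f g : P2, eval₂ e ![x, y] f = eval₂ e ![x, y] g →
      eval₂ e ![x, y] (cdf f) = eval₂ e ![x, y] (cdf g) := by
    intro f g hfg
    have h1 : eval₂ e ![x, y] (f - g) = 0 := by
      rw [← coe_eval₂Hom, map_sub, coe_eval₂Hom, hfg, sub_self]
    obtain ⟨h, hh⟩ := Ideal.mem_span_singleton'.mp (ker _ h1)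
    have h2 : f = h * (X 1 ^ 2 + X 1 - X 0 ^ 3) + g := by rw [hh]; ring
    rw [h2, cdf_add, cdf_mul, cdf_rel, mul_zero, zero_add, eval₂_add, eval₂_mul, hrel, zero_mul,
      zero_add]
  choose F hF using gen
  have hD : ∀ f : P2, eval₂ e ![x, y] (cdf (F (eval₂ e ![x, y] f))) = eval₂ e ![x, y] (cdf f) :=
    fun f => hwd _ _ (hF _)
  refine ⟨AddMonoidHom.mk' (fun s => eval₂ e ![x, y] (cdf (F s))) ?_, ?_, ?_, ?_, ?_⟩
  · intro a b
    have h1 : a + b = eval₂ e ![x, y] (F a + F b) := by rw [eval₂_add, hF, hF]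
    rw [h1, hD, cdf_add, eval₂_add]
  · intro a b
    have h1 : a * b = eval₂ e ![x, y] (F a * F b) := by rw [eval₂_mul, hF, hF]
    simp only [AddMonoidHom.mk'_apply]
    rw [h1, hD, cdf_mul, eval₂_add, eval₂_mul, eval₂_mul, hF, hF]
  · intro a
    have h1 : e a = eval₂ e ![x, y] (C a) := by rw [eval₂_C]
    simp only [AddMonoidHom.mk'_apply]
    rw [h1, hD, cdf_C, eval₂_C]
  · have h1 : x = eval₂ e ![x, y] (X 0) := by rw [eval₂_X]; rfl
    have h2 := hD (X 0)
    rw [← h1, cdf_X, eval₂_zero] at h2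
    exact h2
  · have h1 : y = eval₂ e ![x, y] (X 1) := by rw [eval₂_X]; rfl
    have h2 := hD (X 1)
    rw [← h1, cdf_X, eval₂_zero] at h2
    exact h2

/-- extension to the fraction field is a derivation in characteristic 2 -/
lemma exists_ext {L K : Type} [CommRing L] [IsDomain L] [Field K] [Algebra L K]
    [IsFractionRing L K] (h2 : (2 : L) = 0) (D : L →+ L)
    (hL : ∀ a b, D (a * b) = a * D b + b * D a) :
    ∃ E : K →+ K, Pool.Agent.H835R3.IsSemi 2 2 E ∧ (∀ a b, E (a * b) = a * E b + b * E a) ∧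
      ∀ a, E (algebraMap L K a) = algebraMap L K (D a) := by
  have hsemi : Pool.Agent.H835R3.IsSemi 2 2 D := by
    intro a b
    have h3 : D (a ^ 2) = 0 := by
      rw [pow_two, hL, ← two_mul, h2, zero_mul]
    rw [hL, h3, mul_zero, add_zero]
  refine ⟨Pool.Agent.H835R3.extHom (K := K) two_pos D hsemi,
    Pool.Agent.H835R3.extHom_isSemi two_pos D hsemi, ?_,
    fun a => Pool.Agent.H835R3.extHom_algebraMap two_pos D hsemi a⟩
  intro z w
  have hinj : Function.Injective (algebraMap L K) := IsFractionRing.injective L K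
  obtain ⟨⟨a, s⟩, hz⟩ := IsLocalization.surj (nonZeroDivisors L) z
  obtain ⟨⟨b, t⟩, hw⟩ := IsLocalization.surj (nonZeroDivisors L) w
  simp only at hz hw
  have hs : (s : L) ≠ 0 := nonZeroDivisors.ne_zero s.2
  have ht : (t : L) ≠ 0 := nonZeroDivisors.ne_zero t.2
  have hs' : algebraMap L K s ≠ 0 := fun h => hs (hinj (by rw [h, map_zero]))
  have ht' : algebraMap L K t ≠ 0 := fun h => ht (hinj (by rw [h, map_zero]))
  have hzw : (z * w) * algebraMap L K (s * t) = algebraMap L K (a * b) := by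
    rw [map_mul, map_mul, ← hz, ← hw]
    ring
  rw [Pool.Agent.H835R3.extHom_apply two_pos D hsemi a s hs z hz,
    Pool.Agent.H835R3.extHom_apply two_pos D hsemi b t ht w hw,
    Pool.Agent.H835R3.extHom_apply two_pos D hsemi (a * b) (s * t) (mul_ne_zero hs ht) _ hzw]
  have h1 : (a * b) * (s * t : L) ^ (2 - 1) = (a * (s : L) ^ (2 - 1)) * (b * (t : L) ^ (2 - 1)) := by
    ring
  have hz' : z = algebraMap L K a / algebraMap L K s := by rw [eq_div_iff hs', hz]
  have hw' : w = algebraMap L K b / algebraMap L K t := by rw [eq_div_iff ht', hw]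
  rw [h1, hL, hz', hw', map_add, map_mul, map_mul]
  simp only [map_mul, show (2 - 1 : ℕ) = 1 from rfl, pow_one]
  field_simp

end Der632

open Der632 in
theorem taskDer : TaskDer := by
  intro X c D₁ D₂ z w x y h
  have hint : IsIntegral X := h.int
  -- `y ≠ 0`
  have hy0 : y ≠ 0 := by
    intro hy
    have h1 : MvPolynomial.eval₂ (cst c D₂) ![x, y] (MvPolynomial.X 1) = 0 := by
      rw [MvPolynomial.eval₂_X]
      exact hy
    obtain ⟨g, hg⟩ := Ideal.mem_span_singleton'.mp (h.ker₂ _ h1)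
    have h2 := congrArg (MvPolynomial.eval (![0, 1] : Fin 2 → A2)) hg
    simp only [map_mul, map_sub, map_add, map_pow, MvPolynomial.eval_X, Matrix.cons_val_one,
      Matrix.cons_val_zero] at h2
    have h3 : (1 : A2) ^ 2 + 1 - 0 ^ 3 = 0 := by
      have := two_A2
      linear_combination this
    rw [h3, mul_zero] at h2
    exact zero_ne_one h2
  have hne : D₁ ⊓ D₂ ≠ ⊥ := by
    rw [← h.bo₂]
    intro hb
    exact hy0 ((AlgebraicGeometry.basicOpen_eq_bot_iff y).mp hb)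
  obtain ⟨pt, hpt⟩ : ∃ pt, pt ∈ D₁ ⊓ D₂ := by
    by_contra hcon
    push Not at hcon
    apply hne
    ext p
    simp only [Opens.coe_bot, Set.mem_empty_iff_false, iff_false]
    exact hcon p
  have hη : genericPoint X ∈ D₁ ⊓ D₂ := H835R3.genericPoint_mem _ pt hpt
  have hη1 : genericPoint X ∈ D₁ := hη.1
  have hη2 : genericPoint X ∈ D₂ := hη.2
  have hne2 : Nonempty D₂ := ⟨⟨_, hη2⟩⟩
  have hfr : IsFractionRing Γ(X, D₂) X.functionField :=
    functionField_isFractionRing_of_isAffineOpen X D₂ h.af₂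
  obtain ⟨D, hDL, hDc, hDx, hDy⟩ := exists_delta (cst c D₂) x y h.rel₂ h.gen₂ h.ker₂
  have h2B : (2 : Γ(X, D₂)) = 0 := by
    have := congrArg (cst c D₂) two_A2
    rwa [map_ofNat, map_zero] at this
  obtain ⟨E, hEs, hEL, hED⟩ := exists_ext (K := X.functionField) h2B D hDL
  have hED' : ∀ s : Γ(X, D₂), E (H835R3.gam D₂ hη2 s) = H835R3.gam D₂ hη2 (D s) := hED
  have hηt : genericPoint X ∈ (⊤ : X.Opens) := trivial
  -- constants in the function field
  have hκ : ∀ (W : X.Opens) (hW : genericPoint X ∈ W) (a : A2),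
      H835R3.gam W hW (cst c W a) = H835R3.gam ⊤ hηt (c a) := by
    intro W hW a
    exact H835R3.gam_res (le_top : W ≤ ⊤) hW (c a)
  have hEκ : ∀ a : A2, E (((H835R3.gam (X := X) ⊤ hηt).comp c) a) =
      ((H835R3.gam (X := X) ⊤ hηt).comp c) (PowerSeries.derivative (ZMod 2) a) := by
    intro a
    rw [RingHom.comp_apply, RingHom.comp_apply, ← hκ D₂ hη2, ← hκ D₂ hη2, hED', hDc]
  have hgy : H835R3.gam D₁ hη1 w * H835R3.gam D₂ hη2 y = 1 := by
    have h1 := congrArg (H835R3.gam (D₁ ⊓ D₂) hη) h.cmpw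
    rw [map_mul, map_one] at h1
    rw [← h1]
    exact congrArg₂ (· * ·) (H835R3.gam_res inf_le_left hη w).symm
      (H835R3.gam_res inf_le_right hη y).symm
  have hgx : H835R3.gam D₁ hη1 z * H835R3.gam D₂ hη2 y = H835R3.gam D₂ hη2 x := by
    have h1 := congrArg (H835R3.gam (D₁ ⊓ D₂) hη) h.cmpz
    rw [map_mul] at h1
    have e1 : H835R3.gam (D₁ ⊓ D₂) hη (rs inf_le_left z) = H835R3.gam D₁ hη1 z :=
      H835R3.gam_res inf_le_left hη z
    have e2 : H835R3.gam (D₁ ⊓ D₂) hη (rs inf_le_right y) = H835R3.gam D₂ hη2 y :=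
      H835R3.gam_res inf_le_right hη y
    have e3 : H835R3.gam (D₁ ⊓ D₂) hη (rs inf_le_right x) = H835R3.gam D₂ hη2 x :=
      H835R3.gam_res inf_le_right hη x
    rw [e1, e2, e3] at h1
    exact h1
  have hEy : E (H835R3.gam D₂ hη2 y) = 0 := by rw [hED', hDy, map_zero]
  have hEx : E (H835R3.gam D₂ hη2 x) = 0 := by rw [hED', hDx, map_zero]
  have hgy0 : H835R3.gam D₂ hη2 y ≠ 0 := right_ne_zero_of_mul_eq_one hgy
  have hE1 : E 1 = 0 := by
    have := hEL 1 1
    rw [mul_one, one_mul] at this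
    exact left_eq_add.mp this
  have hEw : E (H835R3.gam D₁ hη1 w) = 0 := by
    have h1 := hEL (H835R3.gam D₁ hη1 w) (H835R3.gam D₂ hη2 y)
    rw [hgy, hE1, hEy, mul_zero, zero_add] at h1
    rcases mul_eq_zero.mp h1.symm with h2 | h2
    · exact absurd h2 hgy0
    · exact h2
  have hEz : E (H835R3.gam D₁ hη1 z) = 0 := by
    have h1 := hEL (H835R3.gam D₁ hη1 z) (H835R3.gam D₂ hη2 y)
    rw [hgx, hEx, hEy, mul_zero, zero_add] at h1
    rcases mul_eq_zero.mp h1.symm with h2 | h2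
    · exact absurd h2 hgy0
    · exact h2
  -- the two charts are preserved
  have hpres1 : ∀ s : Γ(X, D₁), ∃ t : Γ(X, D₁),
      H835R3.gam D₁ hη1 t = E (H835R3.gam D₁ hη1 s) := by
    intro s
    obtain ⟨f, rfl⟩ := h.gen₁ s
    refine ⟨MvPolynomial.eval₂ (cst c D₁) ![z, w] (cdf f), ?_⟩
    have hev : ∀ f : P2, H835R3.gam D₁ hη1 (MvPolynomial.eval₂ (cst c D₁) ![z, w] f) =
        MvPolynomial.eval₂ ((H835R3.gam (X := X) ⊤ hηt).comp c)
          ![H835R3.gam D₁ hη1 z, H835R3.gam D₁ hη1 w] f := by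
      intro f
      rw [MvPolynomial.eval₂_comp_left]
      congr 1
      · ext1 a
        exact hκ D₁ hη1 a
      · funext i
        fin_cases i <;> rfl
    rw [hev, hev, eval_cdf _ _ E hEL hEκ]
    intro i
    fin_cases i
    · exact hEz
    · exact hEw
  have hpres2 : ∀ s : Γ(X, D₂), ∃ t : Γ(X, D₂),
      H835R3.gam D₂ hη2 t = E (H835R3.gam D₂ hη2 s) := fun s => ⟨D s, (hED' s).symm⟩
  obtain ⟨ψ, hψ1, hψ2, -⟩ := H835R3.exists_sections (X := X) two_pos E hEs
    (fun i : Bool => if i then D₁ else D₂)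
    (by intro i; cases i; exacts [h.af₂, h.af₁])
    (by intro i; cases i; exacts [hη2, hη1])
    (by intro i; cases i; exacts [hpres2, hpres1])
    ⊤ (by
      rw [iSup_bool_eq]
      simp only [if_true, Bool.false_eq_true, if_false]
      rw [h.cov])
  have hψ : ∀ (U : X.Opens) (hU : genericPoint X ∈ U) (s : Γ(X, U)),
      H835R3.gam U hU (ψ ⟨U, le_top⟩ s) = E (H835R3.gam U hU s) :=
    fun U hU s => hψ1 ⟨U, le_top⟩ hU s
  refine ⟨⟨fun U => ψ ⟨U, le_top⟩, ?_, ?_⟩, ?_, ?_, ?_⟩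
  · intro U a b
    apply H835R3.eq_of_gam
    intro hU
    have e1 : H835R3.gam U hU (a * ψ ⟨U, le_top⟩ b + b * ψ ⟨U, le_top⟩ a) =
        H835R3.gam U hU a * H835R3.gam U hU (ψ ⟨U, le_top⟩ b) +
          H835R3.gam U hU b * H835R3.gam U hU (ψ ⟨U, le_top⟩ a) := by
      rw [map_add, map_mul, map_mul]
    refine (hψ U hU (a * b)).trans ?_
    refine Eq.trans ?_ e1.symm
    rw [hψ, hψ, map_mul, hEL]
  · intro U V hVU a
    exact hψ2 ⟨U, le_top⟩ ⟨V, le_top⟩ hVU a
  · intro U a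
    apply H835R3.eq_of_gam
    intro hU
    rw [hψ1 ⟨U, le_top⟩ hU, hκ U hU, hκ U hU]
    exact hEκ a
  · apply H835R3.gam_injective D₂ hη2
    rw [hψ1 ⟨D₂, le_top⟩ hη2, map_zero]
    exact hEx
  · apply H835R3.gam_injective D₂ hη2
    rw [hψ1 ⟨D₂, le_top⟩ hη2, map_zero]
    exact hEy

end Pool.Agent.H835R5
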