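import Pool.Agent.H835R5.Stmts2

set_option autoImplicit false

namespace Pool.Agent.H835R5

namespace DomT

open Polynomial

/-- `Y² + Y - X³` over `R[X]` -/
noncomputable def m (R : Type) [CommRing R] : Polynomial (Polynomial R) :=
  X ^ 2 + X - C (X ^ 3)

variable (R : Type) [CommRing R]

theorem m_natDegree [Nontrivial R] : (m R).natDegree = 2 := by
  unfold m
  compute_degree!

theorem m_monic [Nontrivial R] : (m R).Monic := by
  unfold m
  monicity!

theorem root_rel : AdjoinRoot.root (m R) ^ 2 + AdjoinRoot.root (m R)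
    - (AdjoinRoot.of (m R) X) ^ 3 = 0 := by
  have h : AdjoinRoot.mk (m R) (X ^ 2 + X - C (X ^ 3)) = 0 := AdjoinRoot.mk_self
  rw [map_sub, map_add, map_pow, AdjoinRoot.mk_X, AdjoinRoot.mk_C, map_pow] at h
  exact h

/-- the norm form -/
noncomputable def nm {R : Type} [CommRing R] (a b : Polynomial R) : Polynomial R :=
  a ^ 2 - a * b - b ^ 2 * X ^ 3

theorem nm_eq_zero {R : Type} [CommRing R] [IsDomain R] {a b : Polynomial R} (h : nm a b = 0) :
    a = 0 ∧ b = 0 := by
  unfold nm at h
  by_cases hb : b = 0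
  · subst hb
    simp at h
    exact ⟨h, rfl⟩
  · exfalso
    have h1 : a * (a - b) = b ^ 2 * X ^ 3 := by linear_combination h
    have hne : b ^ 2 * X ^ 3 ≠ 0 := mul_ne_zero (pow_ne_zero _ hb) (pow_ne_zero _ X_ne_zero)
    have ha : a ≠ 0 := by
      rintro rfl
      rw [zero_mul] at h1
      exact hne h1.symm
    have hab : a - b ≠ 0 := by
      intro h2
      rw [h2, mul_zero] at h1
      exact hne h1.symm
    have hd := congrArg natDegree h1
    rw [natDegree_mul ha hab, natDegree_mul (pow_ne_zero _ hb) (pow_ne_zero _ X_ne_zero),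
      natDegree_pow, natDegree_X_pow] at hd
    rcases lt_or_ge b.natDegree a.natDegree with hlt | hge
    · rw [natDegree_sub_eq_left_of_natDegree_lt hlt] at hd
      omega
    · have h3 : (a - b).natDegree ≤ b.natDegree :=
        (natDegree_sub_le a b).trans (max_le hge le_rfl)
      omega

theorem repr [Nontrivial R] (u : AdjoinRoot (m R)) : ∃ a b : Polynomial R,
    u = AdjoinRoot.of (m R) a + AdjoinRoot.of (m R) b * AdjoinRoot.root (m R) := by
  obtain ⟨p, rfl⟩ := AdjoinRoot.mk_surjective u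
  have h1 : AdjoinRoot.mk (m R) p = AdjoinRoot.mk (m R) (p %ₘ m R) := by
    rw [AdjoinRoot.mk_eq_mk]
    have := modByMonic_add_div p (m R)
    exact ⟨p /ₘ m R, by linear_combination -this⟩
  have h2 : (p %ₘ m R).natDegree ≤ 1 := by
    have h3 := natDegree_modByMonic_lt p (m_monic R) (by
      intro h
      have := m_natDegree R
      rw [h] at this
      simp at this)
    rw [m_natDegree] at h3
    omega
  have h4 := eq_X_add_C_of_natDegree_le_one h2
  refine ⟨(p %ₘ m R).coeff 0, (p %ₘ m R).coeff 1, ?_⟩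
  rw [h1]
  conv_lhs => rw [h4]
  rw [map_add, map_mul, AdjoinRoot.mk_C, AdjoinRoot.mk_C, AdjoinRoot.mk_X]
  ring

theorem nzd [IsDomain R] (u v : AdjoinRoot (m R)) (h : u * v = 0) : u = 0 ∨ v = 0 := by
  obtain ⟨a, b, rfl⟩ := repr R u
  obtain ⟨c, d, rfl⟩ := repr R v
  have hy := root_rel R
  have key : ∀ a b : Polynomial R, AdjoinRoot.of (m R) (nm a b)
      = (AdjoinRoot.of (m R) a + AdjoinRoot.of (m R) b * AdjoinRoot.root (m R))
        * (AdjoinRoot.of (m R) a + AdjoinRoot.of (m R) b * (-1 - AdjoinRoot.root (m R))) := by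
    intro a b
    unfold nm
    simp only [map_sub, map_mul, map_pow]
    linear_combination (AdjoinRoot.of (m R) b) ^ 2 * hy
  have h1 : AdjoinRoot.of (m R) (nm a b * nm c d) = 0 := by
    rw [map_mul, key, key]
    linear_combination ((AdjoinRoot.of (m R) a + AdjoinRoot.of (m R) b * (-1 - AdjoinRoot.root (m R)))
      * (AdjoinRoot.of (m R) c + AdjoinRoot.of (m R) d * (-1 - AdjoinRoot.root (m R)))) * h
  have hinj : Function.Injective (AdjoinRoot.of (m R)) := by
    apply AdjoinRoot.of.injective_of_degree_ne_zero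
    rw [degree_eq_natDegree (m_monic R).ne_zero, m_natDegree]
    norm_num
  have h2 : nm a b * nm c d = 0 := hinj (by rw [h1, map_zero])
  rcases mul_eq_zero.mp h2 with h3 | h3
  · left
    obtain ⟨rfl, rfl⟩ := nm_eq_zero h3
    simp
  · right
    obtain ⟨rfl, rfl⟩ := nm_eq_zero h3
    simp

/-- evaluation -/
noncomputable def f1 : MvPolynomial (Fin 2) R →+* AdjoinRoot (m R) :=
  MvPolynomial.eval₂Hom ((AdjoinRoot.of (m R)).comp Polynomial.C)
    ![AdjoinRoot.of (m R) X, AdjoinRoot.root (m R)]

theorem f1_rel : f1 R (relQ R) = 0 := by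
  unfold f1 relQ
  simp only [map_sub, map_add, map_pow, MvPolynomial.eval₂Hom_X', Matrix.cons_val_zero,
    Matrix.cons_val_one]
  exact root_rel R

/-- the map to the root ring -/
noncomputable def toAR : QQ R →+* AdjoinRoot (m R) :=
  Ideal.Quotient.lift (Ideal.span {relQ R}) (f1 R) (by
    intro a ha
    obtain ⟨b, rfl⟩ := Ideal.mem_span_singleton'.mp ha
    rw [map_mul, f1_rel, mul_zero])

theorem rel_QQ : gq R 1 ^ 2 + gq R 1 - gq R 0 ^ 3 = 0 := by
  have : (Ideal.Quotient.mk (Ideal.span {relQ R})) (relQ R) = 0 :=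
    Ideal.Quotient.eq_zero_iff_mem.mpr (Ideal.mem_span_singleton_self _)
  have h2 : (Ideal.Quotient.mk (Ideal.span {relQ R}))
    (MvPolynomial.X 1 ^ 2 + MvPolynomial.X 1 - MvPolynomial.X 0 ^ 3) = 0 := this
  rw [map_sub, map_add, map_pow, map_pow] at h2
  exact h2

/-- the map back -/
noncomputable def fromAR : AdjoinRoot (m R) →+* QQ R :=
  AdjoinRoot.lift (Polynomial.eval₂RingHom (algebraMap R (QQ R)) (gq R 0)) (gq R 1) (by
    have h := rel_QQ R
    unfold m
    rw [eval₂_sub, eval₂_add, eval₂_X_pow, eval₂_X, eval₂_C, map_pow]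
    have e : (Polynomial.eval₂RingHom (algebraMap R (QQ R)) (gq R 0)) X = gq R 0 := by
      simp
    rw [e]
    exact h)

theorem from_to : (fromAR R).comp (toAR R) = RingHom.id _ := by
  apply Ideal.Quotient.ringHom_ext
  apply MvPolynomial.ringHom_ext
  · intro r
    simp [toAR, fromAR, f1]
    rfl
  · intro i
    fin_cases i
    · simp [toAR, fromAR, f1, gq]
    · simp [toAR, fromAR, f1, gq]

end DomT

theorem taskDom : TaskDom := by
  intro R _ _
  have h1 : Function.Injective (DomT.toAR R) := by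
    apply Function.LeftInverse.injective (g := DomT.fromAR R)
    intro u
    exact congrArg (fun f : QQ R →+* QQ R => f u) (DomT.from_to R)
  have h2 : NoZeroDivisors (AdjoinRoot (DomT.m R)) := ⟨fun {a b} h => DomT.nzd R a b h⟩
  have h3 : Nontrivial (AdjoinRoot (DomT.m R)) := by
    apply AdjoinRoot.nontrivial
    rw [Polynomial.degree_eq_natDegree (DomT.m_monic R).ne_zero, DomT.m_natDegree]
    norm_num
  have h4 : IsDomain (AdjoinRoot (DomT.m R)) := NoZeroDivisors.to_isDomain _
  exact h1.isDomain (DomT.toAR R)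

end Pool.Agent.H835R5
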