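import Pool.Agent.H835R5.Stmts2

/-!
# MP_d82055_ag: the curve `Y²Z + YZ² = X³` satisfies `EC` (helper662)
-/

set_option autoImplicit false

open CategoryTheory AlgebraicGeometry TopologicalSpace Opposite
open Pool.Agent.Helper198.Sch

namespace Pool.Agent.H835R5

attribute [local instance] MvPolynomial.gradedAlgebra

namespace TEC

lemma cubic_mem (R : Type) [CommRing R] : cubic R ∈ (JE R).toIdeal := by
  unfold JE
  exact mem_ofSet rfl

lemma rel1 (R : Type) [CommRing R] :
    frac (JE R) 1 2 ^ 2 + frac (JE R) 1 2 = frac (JE R) 1 0 ^ 3 := by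
  have h := aeval_frac_eq_zero (JE R) 1 (cubic R) (cubic_mem R)
  simp only [cubic, map_sub, map_add, map_mul, map_pow, MvPolynomial.aeval_X, frac_self, one_pow,
    one_mul] at h
  rw [sub_eq_zero] at h
  rw [add_comm]
  exact h

lemma rel2 (R : Type) [CommRing R] :
    frac (JE R) 2 1 ^ 2 + frac (JE R) 2 1 = frac (JE R) 2 0 ^ 3 := by
  have h := aeval_frac_eq_zero (JE R) 2 (cubic R) (cubic_mem R)
  simp only [cubic, map_sub, map_add, map_mul, map_pow, MvPolynomial.aeval_X, frac_self, one_pow,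
    mul_one] at h
  rw [sub_eq_zero] at h
  exact h

lemma gq1_ne_zero (R : Type) [CommRing R] [Nontrivial R] : gq R 1 ≠ 0 := by
  intro h
  unfold gq at h
  rw [Ideal.Quotient.eq_zero_iff_mem, Ideal.mem_span_singleton] at h
  obtain ⟨g, hg⟩ := h
  have h2 := congrArg (MvPolynomial.aeval (![0, -1] : Fin 2 → R)) hg
  simp [relQ] at h2

/-- polynomials in the generators -/
lemma aeval_gq (R : Type) [CommRing R] (f : MvPolynomial (Fin 2) R) :
    MvPolynomial.aeval (![gq R 0, gq R 1] : Fin 2 → QQ R) f = Ideal.Quotient.mk _ f := by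
  have h : (MvPolynomial.aeval (![gq R 0, gq R 1] : Fin 2 → QQ R) : MvPolynomial (Fin 2) R →ₐ[R] QQ R)
      = Ideal.Quotient.mkₐ R (Ideal.span {relQ R}) := by
    apply MvPolynomial.algHom_ext
    intro i
    rw [MvPolynomial.aeval_X]
    fin_cases i <;> rfl
  rw [h]
  rfl

lemma eval_chart {R : Type} [CommRing R] (hC : TaskCmp) (c : Fin 3) (u : Fin 2 → Ch (JE R) c)
    (f : MvPolynomial (Fin 2) R) :
    MvPolynomial.eval₂ (cst (cJ (JE R)) (V.D (JE R) c)) (fun i => H835R5.sc (JE R) c (u i)) f =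
      H835R5.sc (JE R) c (MvPolynomial.aeval u f) := by
  have h1 := (hC (Fin 3) R (JE R)).2.2.1 c
  have h2 : cst (cJ (JE R)) (V.D (JE R) c) =
      (H835R5.sc (JE R) c).comp (algebraMap R (Ch (JE R) c)) := by
    ext a
    exact (h1 a).symm
  rw [h2, MvPolynomial.aeval_def, ← MvPolynomial.coe_eval₂Hom, ← MvPolynomial.coe_eval₂Hom]
  have h3 : (MvPolynomial.eval₂Hom ((H835R5.sc (JE R) c).comp (algebraMap R (Ch (JE R) c)))
      (fun i => H835R5.sc (JE R) c (u i))) =
      (H835R5.sc (JE R) c).comp (MvPolynomial.eval₂Hom (algebraMap R (Ch (JE R) c)) u) := by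
    apply MvPolynomial.ringHom_ext
    · intro a
      simp
    · intro i
      simp
  rw [h3]
  rfl

lemma gen_chart {R : Type} [CommRing R] (hC : TaskCmp) (c : Fin 3) (u v : Ch (JE R) c)
    (e : Ch (JE R) c ≃ₐ[R] QQ R) (h0 : e u = gq R 0) (h1 : e v = gq R 1)
    (s : Γ(XE R, V.D (JE R) c)) : ∃ f : MvPolynomial (Fin 2) R,
      MvPolynomial.eval₂ (cst (cJ (JE R)) (V.D (JE R) c))
        ![H835R5.sc (JE R) c u, H835R5.sc (JE R) c v] f = s := by
  obtain ⟨a, rfl⟩ := ((hC (Fin 3) R (JE R)).1 c).2 s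
  obtain ⟨f, hf⟩ := Ideal.Quotient.mk_surjective (e a)
  refine ⟨f, ?_⟩
  have h2 : (![H835R5.sc (JE R) c u, H835R5.sc (JE R) c v] : Fin 2 → _) =
      fun i => H835R5.sc (JE R) c ((![u, v] : Fin 2 → Ch (JE R) c) i) := by
    funext i
    fin_cases i <;> rfl
  rw [h2, eval_chart hC]
  congr 1
  apply e.injective
  rw [← hf, ← aeval_gq, ← AlgEquiv.coe_toAlgHom, ← AlgHom.comp_apply, MvPolynomial.comp_aeval]
  congr 2
  funext i
  fin_cases i
  · exact h0
  · exact h1

lemma ker_chart {R : Type} [CommRing R] (hC : TaskCmp) (c : Fin 3) (u v : Ch (JE R) c)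
    (e : Ch (JE R) c ≃ₐ[R] QQ R) (h0 : e u = gq R 0) (h1 : e v = gq R 1)
    (f : MvPolynomial (Fin 2) R)
    (hf : MvPolynomial.eval₂ (cst (cJ (JE R)) (V.D (JE R) c))
        ![H835R5.sc (JE R) c u, H835R5.sc (JE R) c v] f = 0) :
    f ∈ Ideal.span {relQ R} := by
  have h2 : (![H835R5.sc (JE R) c u, H835R5.sc (JE R) c v] : Fin 2 → _) =
      fun i => H835R5.sc (JE R) c ((![u, v] : Fin 2 → Ch (JE R) c) i) := by
    funext i
    fin_cases i <;> rfl
  rw [h2, eval_chart hC] at hf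
  have h3 := ((hC (Fin 3) R (JE R)).1 c).1 (hf.trans (map_zero _).symm)
  have h4 := congrArg e h3
  rw [map_zero, ← AlgEquiv.coe_toAlgHom, ← AlgHom.comp_apply, MvPolynomial.comp_aeval] at h4
  rw [← Ideal.Quotient.eq_zero_iff_mem, ← aeval_gq, ← h4]
  congr 2
  funext i
  fin_cases i
  · exact h0.symm
  · exact h1.symm

end TEC

theorem taskEC : TaskEC := by
  intro hCh hDom hCov hCmp R _ _
  obtain ⟨⟨e2, e20, e21⟩, ⟨e1, e10, e12⟩⟩ := hCh R
  have hQ := hDom R
  have hd1 : IsDomain (Ch (JE R) 1) := e1.toMulEquiv.isDomain (QQ R)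
  have hd2 : IsDomain (Ch (JE R) 2) := e2.toMulEquiv.isDomain (QQ R)
  obtain ⟨c1, c2, c3, c4, c5⟩ := hCmp (Fin 3) R (JE R)
  refine
    { int := ?_
      af₁ := c2 1
      af₂ := c2 2
      cov := ?_
      bo₁ := c4 1 2
      bo₂ := (c4 2 1).trans (inf_comm _ _)
      rel₁ := ?_
      rel₂ := ?_
      cmpw := ?_
      cmpz := ?_
      gen₁ := TEC.gen_chart hCmp 1 _ _ e1 e10 e12
      gen₂ := TEC.gen_chart hCmp 2 _ _ e2 e20 e21
      ker₂ := TEC.ker_chart hCmp 2 _ _ e2 e20 e21 }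
  · refine V.isIntegral_of_charts (JE R) (ι := Bool) (fun b => if b then 1 else 2) ?_ ?_
      (V.chart (JE R) 2 (⊥ : PrimeSpectrum (Ch (JE R) 2))) ?_
    · intro x
      rcases hCov R x with h | h
      · exact ⟨true, h⟩
      · exact ⟨false, h⟩
    · intro b
      cases b
      · exact hd2
      · exact hd1
    · intro b
      cases b
      · refine (V.chart_mem_D (JE R) 2 2 _).2 ?_
        intro h
        have h1 : frac (JE R) 2 2 = 0 := h
        rw [frac_self] at h1
        exact one_ne_zero h1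
      · refine (V.chart_mem_D (JE R) 2 1 _).2 ?_
        intro h
        have h1 : frac (JE R) 2 1 = 0 := h
        apply TEC.gq1_ne_zero R
        rw [← e21, h1, map_zero]
  · rw [eq_top_iff]
    intro x _
    rcases hCov R x with h | h
    · exact Or.inl h
    · exact Or.inr h
  · rw [← map_pow, ← map_add, TEC.rel1, map_pow]
  · rw [← map_pow, ← map_add, TEC.rel2, map_pow]
  · have h := c5 1 2 1
    rw [frac_self, map_one] at h
    rw [← h]
    exact map_one _
  · have h := c5 1 2 0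
    have h' := c5 1 2 1
    rw [frac_self, map_one] at h'
    have h'' : rs (inf_le_left : V.D (JE R) 1 ⊓ V.D (JE R) 2 ≤ V.D (JE R) 1)
      (1 : Γ(XE R, V.D (JE R) 1)) = 1 := map_one _
    rw [h''] at h'
    rw [h, mul_right_comm, ← h', one_mul]

end Pool.Agent.H835R5
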