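import Pool.Agent.H835R5.Stmts

/-! Task MV: Mayer-Vietoris and naturality, by helper482 -/

set_option autoImplicit false

open CategoryTheory TopologicalSpace Opposite Limits Abelian

namespace Pool.Agent.H835R5

namespace MV

variable {T : TopCat.{0}}

/-- the free abelian sheaf on the open `U` -/
noncomputable abbrev ZZ (U : Opens T) :
    Sheaf (Opens.grothendieckTopology T) AddCommGrpCat.{0} :=
  (presheafToSheaf (Opens.grothendieckTopology T) AddCommGrpCat.{0}).obj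
    (yoneda.obj U ⋙ AddCommGrpCat.free)

/-- functoriality of `ZZ` -/
noncomputable abbrev ZZmap {U V : Opens T} (i : V ⟶ U) : ZZ V ⟶ ZZ U :=
  (presheafToSheaf (Opens.grothendieckTopology T) AddCommGrpCat.{0}).map
    (Functor.whiskerRight (yoneda.map i) AddCommGrpCat.free)

/-- the universal section of the presheaf -/
def e0 (U : Opens T) : (yoneda.obj U ⋙ AddCommGrpCat.free).obj (op U) :=
  FreeAbelianGroup.of (𝟙 U)

/-- the universal section -/
noncomputable def e (U : Opens T) : (ZZ U).obj.obj (op U) :=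
  (toSheafify (Opens.grothendieckTopology T) (yoneda.obj U ⋙ AddCommGrpCat.free)).app (op U) (e0 U)

/-- evaluation -/
noncomputable def ev {U : Opens T} {F : Sheaf (Opens.grothendieckTopology T) AddCommGrpCat.{0}}
    (ψ : ZZ U ⟶ F) : F.obj.obj (op U) := ψ.hom.app (op U) (e U)

lemma ev_comp {U : Opens T} {F G : Sheaf (Opens.grothendieckTopology T) AddCommGrpCat.{0}}
    (ψ : ZZ U ⟶ F) (f : F ⟶ G) : ev (ψ ≫ f) = f.hom.app (op U) (ev ψ) := rfl

lemma ev_add {U : Opens T} {F : Sheaf (Opens.grothendieckTopology T) AddCommGrpCat.{0}}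
    (ψ ψ' : ZZ U ⟶ F) : ev (ψ + ψ') = ev ψ + ev ψ' := rfl

lemma e_map {U V : Opens T} (i : V ⟶ U) :
    (ZZmap i).hom.app (op V) (e V) = (ZZ U).obj.map i.op (e U) := by
  have h1 := toSheafify_naturality (Opens.grothendieckTopology T)
    (Functor.whiskerRight (yoneda.map i) AddCommGrpCat.free.{0})
  have h2 := congrArg (fun φ => φ.app (op V)) h1
  have h3 := ConcreteCategory.congr_hom h2 (e0 V)
  have h4 := ConcreteCategory.congr_hom ((toSheafify (Opens.grothendieckTopology T)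
    (yoneda.obj U ⋙ AddCommGrpCat.free.{0})).naturality i.op) (e0 U)
  have h5 : (Functor.whiskerRight (yoneda.map i) AddCommGrpCat.free.{0}).app (op V) (e0 V) =
    (yoneda.obj U ⋙ AddCommGrpCat.free).map i.op (e0 U) := by
    change FreeAbelianGroup.of (𝟙 V ≫ i) = FreeAbelianGroup.of (i ≫ 𝟙 U)
    rw [Category.id_comp, Category.comp_id]
  change _ = _ at h3
  simp only [NatTrans.comp_app, ConcreteCategory.comp_apply] at h3 h4
  rw [h5] at h3
  exact h3.symm.trans h4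

lemma ev_map {U V : Opens T} (i : V ⟶ U)
    {F : Sheaf (Opens.grothendieckTopology T) AddCommGrpCat.{0}} (ψ : ZZ U ⟶ F) :
    ev (ZZmap i ≫ ψ) = F.obj.map i.op (ev ψ) := by
  rw [ev_comp]
  have h1 : ev (ZZmap i) = (ZZ U).obj.map i.op (e U) := e_map i
  rw [h1]
  exact ConcreteCategory.congr_hom (ψ.hom.naturality i.op) (e U)

/-- the map of presheaves given by a section -/
noncomputable def pm (F : (Opens T)ᵒᵖ ⥤ AddCommGrpCat.{0}) (U : Opens T) (P : F.obj (op U)) :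
    yoneda.obj U ⋙ AddCommGrpCat.free ⟶ F where
  app W := AddCommGrpCat.ofHom (FreeAbelianGroup.lift fun g : W.unop ⟶ U => F.map g.op P)
  naturality W W' i := by
    apply AddCommGrpCat.hom_ext
    apply FreeAbelianGroup.lift_ext
    intro g
    change FreeAbelianGroup.lift (fun g : W'.unop ⟶ U => F.map g.op P)
      (FreeAbelianGroup.of (i.unop ≫ g)) = F.map i (FreeAbelianGroup.lift
      (fun g : W.unop ⟶ U => F.map g.op P) (FreeAbelianGroup.of g))
    rw [FreeAbelianGroup.lift_apply_of, FreeAbelianGroup.lift_apply_of, ← ConcreteCategory.comp_apply,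
      ← Functor.map_comp]
    rfl

lemma ev_surj {U : Opens T} {F : Sheaf (Opens.grothendieckTopology T) AddCommGrpCat.{0}}
    (P : F.obj.obj (op U)) : ∃ ψ : ZZ U ⟶ F, ev ψ = P := by
  refine ⟨⟨sheafifyLift _ (pm F.obj U P) F.property⟩, ?_⟩
  have h1 := toSheafify_sheafifyLift (Opens.grothendieckTopology T) (pm F.obj U P) F.property
  have h2 := congrArg (fun φ => φ.app (op U)) h1
  have h3 := ConcreteCategory.congr_hom h2 (e0 U)
  refine Eq.trans ?_ (h3.trans ?_)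
  · rfl
  · change FreeAbelianGroup.lift (fun g : U ⟶ U => F.obj.map g.op P)
      (FreeAbelianGroup.of (𝟙 U)) = P
    rw [FreeAbelianGroup.lift_apply_of]
    change F.obj.map (𝟙 (op U)) P = P
    rw [F.obj.map_id]
    rfl

/-- the constant presheaf is the free presheaf on `⊤` -/
noncomputable def presIso (U : Opens T) (hU : U = ⊤) :
    (Functor.const (Opens T)ᵒᵖ).obj (AddCommGrpCat.of (ULift.{0} ℤ)) ≅
      yoneda.obj U ⋙ AddCommGrpCat.free :=
  NatIso.ofComponents (fun W =>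
    letI : Unique (W.unop ⟶ U) := ⟨⟨homOfLE (hU ▸ le_top)⟩, fun _ => Subsingleton.elim _ _⟩
    (AddEquiv.ulift.trans (FreeAbelianGroup.uniqueEquiv (W.unop ⟶ U)).symm).toAddCommGrpIso)
    (by
      intro W W' i
      let _ : Unique (W.unop ⟶ U) := ⟨⟨homOfLE (hU ▸ le_top)⟩, fun _ => Subsingleton.elim _ _⟩
      let _ : Unique (W'.unop ⟶ U) := ⟨⟨homOfLE (hU ▸ le_top)⟩, fun _ => Subsingleton.elim _ _⟩
      apply AddCommGrpCat.hom_ext
      apply AddMonoidHom.ext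
      intro x
      change x.down • FreeAbelianGroup.of (default : W'.unop ⟶ U) =
        FreeAbelianGroup.map (fun g : W.unop ⟶ U => i.unop ≫ g)
          (x.down • FreeAbelianGroup.of (default : W.unop ⟶ U))
      rw [map_zsmul, FreeAbelianGroup.map_of_apply]
      congr 2)

/-- the abstract part -/
lemma abs_ext {C : Type*} [Category C] [Abelian C] [HasExt.{0} C] (S : ShortComplex C)
    (hS : S.ShortExact) {K G A : C} (f : K ⟶ G) (φ : S.X₁ ⟶ K)
    (h : ∀ ψ : S.X₂ ⟶ G, S.f ≫ ψ ≠ φ ≫ f) (i : A ≅ S.X₃) :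
    ∃ κ : Ext.{0} A K 1, κ.comp (Ext.mk₀ f) (add_zero 1) ≠ 0 := by
  have key : (hS.extClass.comp (Ext.mk₀ φ) (add_zero 1)).comp (Ext.mk₀ f) (add_zero 1) ≠ 0 := by
    intro h0
    rw [Ext.comp_assoc_of_third_deg_zero, Ext.mk₀_comp_mk₀] at h0
    obtain ⟨x₂, hx₂⟩ := Ext.contravariant_sequence_exact₁ hS G (Ext.mk₀ (φ ≫ f)) (add_zero 1) h0
    obtain ⟨ψ, rfl⟩ := (Ext.mk₀_bijective _ _).2 x₂
    rw [Ext.mk₀_comp_mk₀] at hx₂
    exact h ψ ((Ext.mk₀_bijective _ _).1 hx₂)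
  refine ⟨(Ext.mk₀ i.hom).comp (hS.extClass.comp (Ext.mk₀ φ) (add_zero 1)) (zero_add 1),
    fun h => key ?_⟩
  have h5 : (Ext.mk₀ i.inv).comp (((Ext.mk₀ i.hom).comp
      (hS.extClass.comp (Ext.mk₀ φ) (add_zero 1)) (zero_add 1)).comp (Ext.mk₀ f)
      (add_zero 1)) (zero_add 1) = 0 := by
    rw [h, Ext.comp_zero]
  rw [Ext.comp_assoc_of_third_deg_zero, Ext.mk₀_comp_mk₀_assoc, Iso.inv_hom_id,
    Ext.mk₀_id_comp] at h5
  exact h5

lemma lift_comp_eq {C : Type*} [Category C] [Preadditive C] [HasBinaryBiproducts C]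
    {X Y Z G : C} (a : X ⟶ Y) (b : X ⟶ Z) (ψ : Y ⊞ Z ⟶ G) :
    biprod.lift a (-b) ≫ ψ = a ≫ (biprod.inl ≫ ψ) + b ≫ (-(biprod.inr ≫ ψ)) := by
  have h : ψ = biprod.desc (biprod.inl ≫ ψ) (biprod.inr ≫ ψ) := by
    apply biprod.hom_ext' <;> simp
  conv_lhs => rw [h]
  rw [biprod.lift_desc]
  simp

end MV

open MV in
theorem taskMV : TaskMV := by
  intro T K G f V₁ V₂ hV P hP
  obtain ⟨φ, hφ⟩ := ev_surj (U := V₁ ⊓ V₂) (F := K) P
  let i : (constantSheaf (Opens.grothendieckTopology T) AddCommGrpCat.{0}).obj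
      (AddCommGrpCat.of (ULift.{0} ℤ)) ≅ ZZ (V₁ ⊔ V₂) :=
    (presheafToSheaf _ _).mapIso (presIso (V₁ ⊔ V₂) hV)
  refine abs_ext (Opens.mayerVietorisSquare V₁ V₂).shortComplex
    (Opens.mayerVietorisSquare V₁ V₂).shortComplex_shortExact f φ ?_ i
  intro ψ hψ
  have h3 := lift_comp_eq (ZZmap (homOfLE (inf_le_left : V₁ ⊓ V₂ ≤ V₁)))
    (ZZmap (homOfLE (inf_le_right : V₁ ⊓ V₂ ≤ V₂))) ψ
  have h4 : ev (φ ≫ f) = f.hom.app (op (V₁ ⊓ V₂)) P := by rw [ev_comp, hφ]
  have h5 : φ ≫ f = ZZmap (homOfLE (inf_le_left : V₁ ⊓ V₂ ≤ V₁)) ≫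
        (biprod.inl ≫ ψ) + ZZmap (homOfLE (inf_le_right : V₁ ⊓ V₂ ≤ V₂)) ≫ (-(biprod.inr ≫ ψ)) :=
    hψ.symm.trans h3
  rw [h5, ev_add, ev_map, ev_map] at h4
  exact hP _ _ h4.symm

end Pool.Agent.H835R5
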