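import Pool.Agent.H835R5.Stmts

set_option autoImplicit false

/-! Project H835-KERZ, task NS (helper195). -/

namespace Pool.Agent.H835R5.NS

open HahnSeries

section
variable {Λ : Type} [CommRing Λ]

/-- the uniformiser -/
noncomputable def tt : LaurentSeries Λ := single 1 1

/-- its inverse -/
noncomputable def xx : LaurentSeries Λ := single (-1) 1

lemma xt : (xx : LaurentSeries Λ) * tt = 1 := by
  unfold xx tt
  rw [single_mul_single]
  simp

lemma x3t3 : (xx : LaurentSeries Λ) ^ 3 * tt ^ 3 = 1 := by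
  rw [← mul_pow, xt, one_pow]

variable (Λ) in
/-- the ring `L[y]/(y² + y - x³)` -/
abbrev M : Type := QuadraticAlgebra (LaurentSeries Λ) (xx ^ 3) (-1)

/-- a power series as a Laurent series -/
noncomputable abbrev ps (f : PowerSeries Λ) : LaurentSeries Λ := (f : LaurentSeries Λ)

lemma ps_X : ps (PowerSeries.X : PowerSeries Λ) = tt := PowerSeries.coe_X

variable (Λ) in
/-- functions regular at infinity -/
noncomputable def RV : Subring (M Λ) where
  carrier := {z | ∃ p q : PowerSeries Λ, z.re = ps p ∧ z.im = tt ^ 2 * ps q}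
  mul_mem' := by
    rintro z w ⟨p, q, hp, hq⟩ ⟨p', q', hp', hq'⟩
    refine ⟨p * p' + PowerSeries.X * (q * q'), p * q' + q * p' - PowerSeries.X ^ 2 * (q * q'), ?_, ?_⟩
    · rw [QuadraticAlgebra.re_mul, hp, hq, hp', hq']
      simp only [ps, PowerSeries.coe_add, PowerSeries.coe_mul, PowerSeries.coe_X]
      change _ = _ + tt * _
      linear_combination (tt * ps q * ps q') * (x3t3 (Λ := Λ))
    · rw [QuadraticAlgebra.im_mul, hp, hq, hp', hq']
      simp only [ps, PowerSeries.coe_add, PowerSeries.coe_sub, PowerSeries.coe_mul,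
        PowerSeries.coe_pow, PowerSeries.coe_X]
      change _ = tt ^ 2 * (_ + _ - tt ^ 2 * _)
      ring
  one_mem' := ⟨1, 0, by simp [ps, QuadraticAlgebra.re_one], by simp [ps, QuadraticAlgebra.im_one]⟩
  add_mem' := by
    rintro z w ⟨p, q, hp, hq⟩ ⟨p', q', hp', hq'⟩
    refine ⟨p + p', q + q', ?_, ?_⟩
    · rw [QuadraticAlgebra.re_add, hp, hp']
      simp [ps]
    · rw [QuadraticAlgebra.im_add, hq, hq']
      simp only [ps, PowerSeries.coe_add]
      ring
  zero_mem' := ⟨0, 0, by simp [ps], by simp [ps]⟩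
  neg_mem' := by
    rintro z ⟨p, q, hp, hq⟩
    refine ⟨-p, -q, ?_, ?_⟩
    · rw [QuadraticAlgebra.re_neg, hp]
      simp only [ps]
      rw [eq_comm]
      exact map_neg (HahnSeries.ofPowerSeries ℤ Λ) p
    · rw [QuadraticAlgebra.im_neg, hq]
      have : ps (-q) = -ps q := map_neg (HahnSeries.ofPowerSeries ℤ Λ) q
      rw [this]
      ring

variable (Λ) in
/-- polynomials in `x`, `y` -/
noncomputable def PU : AddSubgroup (M Λ) where
  carrier := {z | ∃ p q : Polynomial Λ, z.re = Polynomial.eval₂ HahnSeries.C xx p ∧ z.im = Polynomial.eval₂ HahnSeries.C xx q}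
  add_mem' := by
    rintro z w ⟨p, q, hp, hq⟩ ⟨p', q', hp', hq'⟩
    exact ⟨p + p', q + q', by rw [QuadraticAlgebra.re_add, hp, hp', Polynomial.eval₂_add],
      by rw [QuadraticAlgebra.im_add, hq, hq', Polynomial.eval₂_add]⟩
  zero_mem' := ⟨0, 0, by simp, by simp⟩
  neg_mem' := by
    rintro z ⟨p, q, hp, hq⟩
    exact ⟨-p, -q, by rw [QuadraticAlgebra.re_neg, hp, Polynomial.eval₂_neg],
      by rw [QuadraticAlgebra.im_neg, hq, Polynomial.eval₂_neg]⟩

lemma aeval_coeff (q : Polynomial Λ) :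
    (Polynomial.eval₂ HahnSeries.C (xx : LaurentSeries Λ) q).coeff 1 = 0 := by
  induction q using Polynomial.induction_on' with
  | add p q hp hq => rw [Polynomial.eval₂_add, HahnSeries.coeff_add, hp, hq, add_zero]
  | monomial n a =>
    rw [Polynomial.eval₂_monomial]
    unfold xx
    rw [single_pow, one_pow, HahnSeries.C_apply, single_mul_single, HahnSeries.coeff_single_of_ne]
    intro h
    simp only [nsmul_eq_mul] at h
    omega

lemma ps_coeff (q : PowerSeries Λ) : (tt ^ 2 * ps q).coeff 1 = 0 := by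
  unfold tt
  rw [single_pow, one_pow, coeff_single_mul, one_mul]
  simp only [ps]
  rw [PowerSeries.coeff_coe, if_pos]
  norm_num

/-- constants -/
noncomputable def cc : Λ →+* M Λ := (algebraMap (LaurentSeries Λ) (M Λ)).comp HahnSeries.C

lemma cc_re (a : Λ) : (cc a).re = HahnSeries.C a := rfl
lemma cc_im (a : Λ) : (cc a).im = 0 := rfl

/-- the element `x` -/
noncomputable def ex : M Λ := ⟨xx, 0⟩
/-- the element `y` -/
noncomputable def ey : M Λ := ⟨0, 1⟩
/-- the element `τ` -/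
noncomputable def et : M Λ := ⟨tt, 0⟩

lemma M_ext {z w : M Λ} (h1 : z.re = w.re) (h2 : z.im = w.im) : z = w :=
  QuadraticAlgebra.ext h1 h2

lemma ext_ : (ex : M Λ) * et = 1 := by
  apply M_ext
  · rw [QuadraticAlgebra.re_mul]
    simp only [ex, et, QuadraticAlgebra.re_one, mul_zero, add_zero]
    exact xt
  · rw [QuadraticAlgebra.im_mul]
    simp [ex, et, QuadraticAlgebra.im_one]

lemma hrel : (ey : M Λ) ^ 2 + ey = ex ^ 3 := by
  apply M_ext
  · simp [ey, ex, pow_succ, QuadraticAlgebra.re_mul, QuadraticAlgebra.im_mul,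
      QuadraticAlgebra.re_one, QuadraticAlgebra.im_one]
  · simp [ey, ex, pow_succ, QuadraticAlgebra.re_mul, QuadraticAlgebra.im_mul,
      QuadraticAlgebra.re_one, QuadraticAlgebra.im_one]

lemma PU_mul_x {z : M Λ} (hz : z ∈ PU Λ) : z * ex ∈ PU Λ := by
  obtain ⟨p, q, hp, hq⟩ := hz
  refine ⟨p * Polynomial.X, q * Polynomial.X, ?_, ?_⟩
  · rw [QuadraticAlgebra.re_mul, hp, Polynomial.eval₂_mul_X]
    simp [ex]
  · rw [QuadraticAlgebra.im_mul, hq, Polynomial.eval₂_mul_X]
    simp [ex]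

lemma PU_mul_y {z : M Λ} (hz : z ∈ PU Λ) : z * ey ∈ PU Λ := by
  obtain ⟨p, q, hp, hq⟩ := hz
  refine ⟨q * Polynomial.X ^ 3, p - q, ?_, ?_⟩
  · rw [QuadraticAlgebra.re_mul, hq, Polynomial.eval₂_mul, Polynomial.eval₂_X_pow]
    simp [ey, mul_comm]
  · rw [QuadraticAlgebra.im_mul, hq, hp, Polynomial.eval₂_sub]
    simp [ey, sub_eq_add_neg]

lemma PU_cc (a : Λ) : cc a ∈ PU Λ := by
  refine ⟨Polynomial.C a, 0, ?_, ?_⟩
  · rw [cc_re, Polynomial.eval₂_C]
  · rw [cc_im, Polynomial.eval₂_zero]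

lemma RV_cc (a : Λ) : cc a ∈ RV Λ := by
  refine ⟨PowerSeries.C a, 0, ?_, ?_⟩
  · rw [cc_re]
    exact (PowerSeries.coe_C a).symm
  · rw [cc_im]
    simp [ps]

end

theorem taskNS : Pool.Agent.H835R5.TaskNS := by
  intro m hm
  set I : Ideal A2 := Ideal.span {(PowerSeries.X : A2) ^ m} with hI
  set Λ : Type := A2 ⧸ I with hΛ
  let q : A2 →+* Λ := Ideal.Quotient.mk I
  refine ⟨M Λ, inferInstance, cc.comp q, ex, ey, et, (ey + 1) * et ^ 3, ey * et ^ 3, PU Λ, RV Λ,
    ?_, hrel, ext_, ?_, ?_, ?_, ?_, ?_, ?_, ?_, ?_⟩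
  · have : q (PowerSeries.X ^ m) = 0 :=
      Ideal.Quotient.eq_zero_iff_mem.2 (Ideal.subset_span rfl)
    rw [RingHom.comp_apply, this, map_zero]
  · have h1 := hrel (Λ := Λ)
    have h2 := ext_ (Λ := Λ)
    have h3 : (ex : M Λ) ^ 3 * et ^ 3 = 1 := by rw [← mul_pow, h2, one_pow]
    linear_combination et ^ 3 * h1 + h3
  · have h1 := hrel (Λ := Λ)
    have h2 := ext_ (Λ := Λ)
    have h3 : (ex : M Λ) ^ 3 * et ^ 3 = 1 := by rw [← mul_pow, h2, one_pow]
    linear_combination et ^ 3 * h1 + h3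
  · intro f
    induction f using MvPolynomial.induction_on with
    | C a => rw [MvPolynomial.eval₂_C]; exact PU_cc _
    | add p q hp hq => rw [MvPolynomial.eval₂_add]; exact (PU Λ).add_mem hp hq
    | mul_X p i hp =>
      rw [MvPolynomial.eval₂_mul, MvPolynomial.eval₂_X]
      fin_cases i
      · exact PU_mul_x hp
      · exact PU_mul_y hp
  · intro a; exact RV_cc _
  · -- x y'
    have h2 := ext_ (Λ := Λ)
    have h4 : (ex : M Λ) * ((ey + 1) * et ^ 3) = (ey + 1) * et ^ 2 := by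
      linear_combination ((ey + 1) * et ^ 2) * h2
    rw [h4]
    refine ⟨PowerSeries.X ^ 2, 1, ?_, ?_⟩
    · simp only [ps, PowerSeries.coe_pow, PowerSeries.coe_X]
      change _ = tt ^ 2
      simp [ey, et, pow_succ, QuadraticAlgebra.re_mul, QuadraticAlgebra.im_mul,
        QuadraticAlgebra.re_one, QuadraticAlgebra.im_one]
    · simp [ey, et, ps, pow_succ, QuadraticAlgebra.re_mul, QuadraticAlgebra.im_mul,
        QuadraticAlgebra.re_one, QuadraticAlgebra.im_one]
  · refine ⟨PowerSeries.X ^ 3, PowerSeries.X, ?_, ?_⟩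
    · simp only [ps, PowerSeries.coe_pow, PowerSeries.coe_X]
      change _ = tt ^ 3
      simp [ey, et, pow_succ, QuadraticAlgebra.re_mul, QuadraticAlgebra.im_mul,
        QuadraticAlgebra.re_one, QuadraticAlgebra.im_one]
    · simp only [ps, PowerSeries.coe_X]
      change _ = tt ^ 2 * tt
      simp [ey, et, pow_succ, QuadraticAlgebra.re_mul, QuadraticAlgebra.im_mul,
        QuadraticAlgebra.re_one, QuadraticAlgebra.im_one]
  · -- y y1'
    have h1 := hrel (Λ := Λ)
    have h2 := ext_ (Λ := Λ)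
    have h3 : (ex : M Λ) ^ 3 * et ^ 3 = 1 := by rw [← mul_pow, h2, one_pow]
    have h4 : (ey : M Λ) * (ey * et ^ 3) = 1 - ey * et ^ 3 := by
      linear_combination et ^ 3 * h1 + h3
    rw [h4]
    refine ⟨1, -PowerSeries.X, ?_, ?_⟩
    · simp [ey, et, ps, pow_succ, QuadraticAlgebra.re_mul, QuadraticAlgebra.im_mul,
        QuadraticAlgebra.re_one, QuadraticAlgebra.im_one]
    · have h5 : ps (-PowerSeries.X : PowerSeries Λ) = -tt := by
        have := map_neg (HahnSeries.ofPowerSeries ℤ Λ) PowerSeries.X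
        rw [← ps_X]
        exact this
      rw [h5]
      simp [ey, et, pow_succ, QuadraticAlgebra.re_mul, QuadraticAlgebra.im_mul,
        QuadraticAlgebra.re_one, QuadraticAlgebra.im_one]
  · intro u hu v hv huv
    obtain ⟨-, q1, -, hq1⟩ := hu
    obtain ⟨-, q2, -, hq2⟩ := hv
    have h1 := congrArg (fun z : M Λ => z.im.coeff 1) huv
    simp only [QuadraticAlgebra.im_add, HahnSeries.coeff_add] at h1
    rw [hq1, hq2, aeval_coeff, ps_coeff, add_zero] at h1
    have h2 : ((cc.comp q) (PowerSeries.X ^ (m - 1)) * (ey * et) : M Λ).im =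
        HahnSeries.C (q (PowerSeries.X ^ (m - 1))) * tt := by
      rw [QuadraticAlgebra.im_mul, RingHom.comp_apply, cc_re, cc_im]
      simp [ey, et, QuadraticAlgebra.re_mul, QuadraticAlgebra.im_mul]
    rw [h2] at h1
    have h3 : (HahnSeries.C (q (PowerSeries.X ^ (m - 1))) * tt : LaurentSeries Λ).coeff 1 =
        q (PowerSeries.X ^ (m - 1)) := by
      unfold tt
      rw [HahnSeries.C_apply, single_mul_single]
      simp
    rw [h3] at h1
    have h4 := Ideal.Quotient.eq_zero_iff_mem.1 h1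
    rw [hI, Ideal.mem_span_singleton, PowerSeries.X_pow_dvd_iff] at h4
    have h5 := h4 (m - 1) (by omega)
    rw [PowerSeries.coeff_X_pow_self] at h5
    exact one_ne_zero h5

end Pool.Agent.H835R5.NS
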