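import Pool.Agent.H835R5.Fin

set_option autoImplicit false

/-! Project H835-KERZ, task SPL (helper195). -/

open CategoryTheory AlgebraicGeometry TopologicalSpace Opposite

namespace Pool.Agent.H835R5.Spl

/-- restriction as a ring homomorphism -/
noncomputable def rh {X : Scheme.{0}} {V W : X.Opens} (h : W ≤ V) : Γ(X, V) →+* Γ(X, W) :=
  (X.presheaf.map (homOfLE h).op).hom

lemma rs_eq {X : Scheme.{0}} {V W : X.Opens} (h : W ≤ V) (s : Γ(X, V)) : rs h s = rh h s := rfl

lemma rh_rh {X : Scheme.{0}} {U V W : X.Opens} (h : V ≤ U) (h' : W ≤ V) (s : Γ(X, U)) :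
    rh h' (rh h s) = rh (h'.trans h) s := by
  change ((X.presheaf.map (homOfLE h).op) ≫ (X.presheaf.map (homOfLE h').op)).hom s = _
  rw [← X.presheaf.map_comp]
  rfl

lemma rh_cst {X : Scheme.{0}} {A : Type} [CommRing A] (c : A →+* Γ(X, ⊤)) {V W : X.Opens}
    (h : W ≤ V) (a : A) : rh h (cst c V a) = cst c W a := rh_rh _ _ _

lemma exists_ev {A : Type} [CommRing A] {X : Scheme.{0}} {c : A →+* Γ(X, ⊤)} {D₁ D₂ : X.Opens}
    {z w : Γ(X, D₁)} {x y : Γ(X, D₂)} (h : EC X c D₁ D₂ z w x y) {N : Type} [CommRing N]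
    (e : A →+* N) (nx ny : N) (hr : ny ^ 2 + ny = nx ^ 3) :
    ∃ ev : Γ(X, D₂) →+* N, ∀ f : MvPolynomial (Fin 2) A,
      ev (MvPolynomial.eval₂ (cst c D₂) ![x, y] f) = MvPolynomial.eval₂ e ![nx, ny] f := by
  let φ : MvPolynomial (Fin 2) A →+* Γ(X, D₂) := MvPolynomial.eval₂Hom (cst c D₂) ![x, y]
  let ψ : MvPolynomial (Fin 2) A →+* N := MvPolynomial.eval₂Hom e ![nx, ny]
  have hφ : Function.Surjective φ := h.gen₂
  have hker : RingHom.ker φ ≤ RingHom.ker ψ := by
    intro f hf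
    have h1 := h.ker₂ f hf
    refine (Ideal.span_le.2 ?_) h1
    rintro _ rfl
    change ψ _ = 0
    simp only [ψ, MvPolynomial.coe_eval₂Hom, MvPolynomial.eval₂_sub, MvPolynomial.eval₂_add,
      MvPolynomial.eval₂_pow, MvPolynomial.eval₂_X]
    change ny ^ 2 + ny - nx ^ 3 = 0
    rw [hr, sub_self]
  exact ⟨φ.liftOfSurjective hφ ⟨ψ, hker⟩, fun f =>
    RingHom.liftOfSurjective_comp_apply φ hφ ⟨ψ, hker⟩ f⟩

lemma exists_loc {X : Scheme.{0}} {D : X.Opens} (hD : IsAffineOpen D) (f : Γ(X, D)) {N : Type}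
    [CommRing N] (ev : Γ(X, D) →+* N) (hu : IsUnit (ev f)) :
    ∃ E : Γ(X, X.basicOpen f) →+* N, ∀ t, E (rh (X.basicOpen_le f) t) = ev t := by
  have := hD.isLocalization_basicOpen f
  refine ⟨IsLocalization.Away.lift (S := Γ(X, X.basicOpen f)) f hu, fun t => ?_⟩
  exact IsLocalization.Away.lift_eq f hu t

lemma exists_surj {X : Scheme.{0}} {D : X.Opens} (hD : IsAffineOpen D) (f : Γ(X, D))
    (u : Γ(X, X.basicOpen f)) : ∃ (n : ℕ) (a : Γ(X, D)),
      u * (rh (X.basicOpen_le f) f) ^ n = rh (X.basicOpen_le f) a := by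
  have := hD.isLocalization_basicOpen f
  obtain ⟨⟨a, ⟨_, n, rfl⟩⟩, ha⟩ := IsLocalization.surj (Submonoid.powers f) u
  refine ⟨n, a, ?_⟩
  rw [← map_pow]
  exact ha

lemma isUnit_res {X : Scheme.{0}} {D W : X.Opens} (f : Γ(X, D)) (hWD : W ≤ D)
    (h : W ≤ X.basicOpen f) : IsUnit (rh hWD f) := by
  have h1 : IsUnit (rh (X.basicOpen_le f) f) := RingedSpace.isUnit_res_basicOpen _ f
  have h2 := h1.map (rh h)
  rwa [rh_rh] at h2

lemma le_basicOpen {X : Scheme.{0}} {D W : X.Opens} (f : Γ(X, D)) (hWD : W ≤ D)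
    (h : IsUnit (rh hWD f)) : W ≤ X.basicOpen f := by
  have h1 : X.basicOpen (rh hWD f) = W := Scheme.basicOpen_of_isUnit X h
  change X.basicOpen ((X.presheaf.map (homOfLE hWD).op).hom f) = W at h1
  rw [Scheme.basicOpen_res] at h1
  exact inf_eq_left.1 h1

theorem main : Pool.Agent.H835R5.TaskSpl := by
  intro NS X c D₁ D₂ z w x y hEC M a hM ha U V' hU hV' h₂ g gi y1' hy1' hg hgi u v heq
  obtain ⟨N, _, e, nx, ny, nx', ny', ny1', PU, RV, he, hrel, hxx, hyy, hyy1, hPU, hRV, hxy, hy', hyy1',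
    hns⟩ := NS M hM
  obtain ⟨ev, hev⟩ := exists_ev hEC e nx ny hrel
  have he' : ∀ b : A2, e (b * PowerSeries.X ^ M) = 0 := fun b => by rw [map_mul, he, mul_zero]
  have hea : e a = 0 := by
    obtain ⟨b, rfl⟩ := ha
    rw [mul_comm]; exact he' b
  have evc : ∀ b : A2, ev (cst c D₂ b) = e b := by
    intro b
    have := hev (MvPolynomial.C b)
    rwa [MvPolynomial.eval₂_C, MvPolynomial.eval₂_C] at this
  have evx : ev x = nx := by
    have := hev (MvPolynomial.X 0)
    rwa [MvPolynomial.eval₂_X, MvPolynomial.eval₂_X] at this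
  have evy : ev y = ny := by
    have := hev (MvPolynomial.X 1)
    rwa [MvPolynomial.eval₂_X, MvPolynomial.eval₂_X] at this
  have evPU : ∀ t, ev t ∈ PU := by
    intro t
    obtain ⟨f, rfl⟩ := hEC.gen₂ t
    rw [hev]; exact hPU f
  -- the element defining the small open
  let s0 : A2 := a * PowerSeries.X ^ M
  let fU : Γ(X, D₂) := 1 + cst c D₂ a * x
  let r : Γ(X, D₂) := 1 + (1 + cst c D₂ s0) * y
  let hW : Γ(X, D₂) := fU * (y * ((1 + y) * r))
  have evfU : ev fU = 1 := by
    simp only [fU, map_add, map_mul, map_one, evc, hea, zero_mul, add_zero]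
  have evr : ev r = 1 + ny := by
    simp only [r, map_add, map_mul, map_one, evc, evy, s0, hea, zero_mul, add_zero, one_mul]
  have unY : IsUnit ny := IsUnit.of_mul_eq_one ny' hyy
  have unY1 : IsUnit (1 + ny) := IsUnit.of_mul_eq_one ny1' hyy1
  have evW : IsUnit (ev hW) := by
    have : ev hW = ny * ((1 + ny) * (1 + ny)) := by
      simp only [hW, map_mul, evfU, evr, map_add, map_one, evy, one_mul]
    rw [this]
    exact unY.mul (unY1.mul unY1)
  obtain ⟨E, hE⟩ := exists_loc hEC.af₂ hW ev evW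
  have hbo : X.basicOpen hW = X.basicOpen fU ⊓ (X.basicOpen y ⊓ (X.basicOpen (1 + y) ⊓ X.basicOpen r)) := by
    simp only [hW, Scheme.basicOpen_mul]
  have hWD₂ : X.basicOpen hW ≤ D₂ := X.basicOpen_le hW
  have hWU0 : X.basicOpen hW ≤ X.basicOpen fU := by rw [hbo]; exact inf_le_left
  have hWy : X.basicOpen hW ≤ X.basicOpen y := by
    rw [hbo]; exact inf_le_right.trans inf_le_left
  have hWy1 : X.basicOpen hW ≤ X.basicOpen (1 + y) := by
    rw [hbo]; exact inf_le_right.trans (inf_le_right.trans inf_le_left)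
  have hWr : X.basicOpen hW ≤ X.basicOpen r := by
    rw [hbo]; exact inf_le_right.trans (inf_le_right.trans inf_le_right)
  have hW12 : X.basicOpen hW ≤ D₁ ⊓ D₂ := by rw [← hEC.bo₂]; exact hWy
  have hWD₁ : X.basicOpen hW ≤ D₁ := hW12.trans inf_le_left
  -- relations on the small open
  have cw : rh hWD₁ w * rh hWD₂ y = 1 := by
    have := congrArg (rh hW12) hEC.cmpw
    rw [map_mul, map_one, rs_eq, rs_eq, rh_rh, rh_rh] at this
    exact this
  have cz : rh hWD₁ z * rh hWD₂ y = rh hWD₂ x := by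
    have := congrArg (rh hW12) hEC.cmpz
    rw [map_mul, rs_eq, rs_eq, rs_eq, rh_rh, rh_rh, rh_rh] at this
    exact this
  let fV : Γ(X, D₁) := (1 + w) * ((1 + cst c D₁ s0) + w)
  have unV : IsUnit (rh hWD₁ fV) := by
    have h1 := isUnit_res (1 + y) hWD₂ hWy1
    have h2 := isUnit_res r hWD₂ hWr
    have h3 : rh hWD₁ fV * (rh hWD₂ y * rh hWD₂ y) = rh hWD₂ (1 + y) * rh hWD₂ r := by
      simp only [fV, r, map_mul, map_add, map_one, rh_cst]
      linear_combination (rh hWD₂ y * (1 + cst c (X.basicOpen hW) s0) + rh hWD₁ w * rh hWD₂ y + 1 + rh hWD₂ y) * cw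
    exact isUnit_of_mul_isUnit_left (h3 ▸ h1.mul h2)
  have hWV0 : X.basicOpen hW ≤ X.basicOpen fV := le_basicOpen fV hWD₁ unV
  have hWU : X.basicOpen hW ≤ U := by rw [hU]; exact hWU0
  have hWV : X.basicOpen hW ≤ V' := by rw [hV']; exact hWV0
  have hWUV : X.basicOpen hW ≤ U ⊓ V' := le_inf hWU hWV
  -- values of `E`
  have Ec : ∀ b, E (cst c _ b) = e b := by
    intro b
    rw [← rh_cst c hWD₂, hE, evc]
  have Ey : E (rh hWD₂ y) = ny := by rw [hE, evy]
  have Ex : E (rh hWD₂ x) = nx := by rw [hE, evx]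
  have Ew : E (rh hWD₁ w) = ny' := by
    have := congrArg E cw
    rw [map_mul, map_one, Ey] at this
    linear_combination ny' * this - E (rh hWD₁ w) * hyy
  have Ez : E (rh hWD₁ z) = nx * ny' := by
    have := congrArg E cz
    rw [map_mul, Ey, Ex] at this
    linear_combination ny' * this - E (rh hWD₁ z) * hyy
  have hRVf : ∀ f : MvPolynomial (Fin 2) A2,
      E (rh hWD₁ (MvPolynomial.eval₂ (cst c D₁) ![z, w] f)) ∈ RV := by
    intro f
    induction f using MvPolynomial.induction_on with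
    | C b =>
      rw [MvPolynomial.eval₂_C, rh_cst, Ec]
      exact hRV b
    | add p q hp hq =>
      rw [MvPolynomial.eval₂_add, map_add, map_add]
      exact RV.add_mem hp hq
    | mul_X p i hp =>
      rw [MvPolynomial.eval₂_mul, MvPolynomial.eval₂_X, map_mul, map_mul]
      refine RV.mul_mem hp ?_
      fin_cases i
      · change E (rh hWD₁ z) ∈ RV
        rw [Ez]; exact hxy
      · change E (rh hWD₁ w) ∈ RV
        rw [Ew]; exact hy'
  -- the two summands
  have Eu : E (rh hWU u) ∈ PU := by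
    subst hU
    obtain ⟨n, b, hb⟩ := exists_surj hEC.af₂ fU u
    have := congrArg (fun t => E (rh hWU t)) hb
    simp only [map_mul, map_pow, rh_rh] at this
    rw [hE, hE, evfU, one_pow, mul_one] at this
    rw [this]
    exact evPU b
  have Ev : E (rh hWV v) ∈ RV := by
    subst hV'
    obtain ⟨n, b, hb⟩ := exists_surj hEC.af₁ fV v
    have := congrArg (fun t => E (rh hWV t)) hb
    simp only [map_mul, map_pow, rh_rh] at this
    obtain ⟨f, rfl⟩ := hEC.gen₁ b
    have hb' := hRVf f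
    have hfV : E (rh hWD₁ fV) = (1 + ny') * (1 + ny') := by
      simp only [fV, map_mul, map_add, map_one, rh_cst, Ec, Ew, s0, hea, zero_mul, add_zero]
    have hinv : (1 + ny') * (ny * ny1') = 1 := by
      linear_combination ny1' * hyy + hyy1
    have e1 : E (rh hWV v) = E (rh hWD₁ (MvPolynomial.eval₂ (cst c D₁) ![z, w] f)) *
        ((ny * ny1') * (ny * ny1')) ^ n := by
      rw [hfV] at this
      have h5 : ((1 + ny') * (1 + ny')) ^ n * ((ny * ny1') * (ny * ny1')) ^ n = 1 := by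
        rw [← mul_pow]
        have : (1 + ny') * (1 + ny') * (ny * ny1' * (ny * ny1')) = 1 := by
          linear_combination ((1 + ny') * (ny * ny1') + 1) * hinv
        rw [this, one_pow]
      rw [← this, mul_assoc, h5, mul_one]
    rw [e1]
    exact RV.mul_mem hb' (RV.pow_mem (RV.mul_mem hyy1' hyy1') n)
  -- conclusion
  have Ey1 : E (rh hWUV y1') = ny1' := by
    have := congrArg (fun t => E (rh hWUV t)) hy1'
    simp only [map_mul, map_add, map_one, rs_eq, rh_rh] at this
    rw [Ey] at this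
    linear_combination ny1' * this - E (rh hWUV y1') * hyy1
  have Eg : E (rh hWUV g) = 1 := by
    rw [hg]
    simp only [map_mul, map_add, map_one, rh_cst, Ec]
    rw [he, zero_mul, add_zero]
  have Egi : E (rh hWUV gi) = 1 := by
    have := congrArg (fun t => E (rh hWUV t)) hgi
    simp only [map_mul, map_one] at this
    rwa [Eg, one_mul] at this
  have hfin := congrArg (fun t => E (rh hWUV t)) heq
  simp only [map_mul, map_add, map_pow, rs_eq, rh_rh, rh_cst, Ec] at hfin
  rw [Egi, one_mul, Ex, Ey1] at hfin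
  refine hns _ Eu _ Ev ?_
  rw [← hfin, ← map_pow]
  linear_combination e (PowerSeries.X ^ (M - 1)) * (-ny * nx' * hyy1 + nx' * ny1' * hrel +
    ny1' * nx ^ 2 * hxx)

end Pool.Agent.H835R5.Spl

/-- TASK SPL -/
theorem Pool.Agent.H835R5.taskSpl : Pool.Agent.H835R5.TaskSpl := Pool.Agent.H835R5.Spl.main
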